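import Pool.Agent.N799.LW.Asym

/-!
# The mean of `|ψ(x) - x|` over short windows
-/

set_option autoImplicit false

open MeasureTheory Filter Topology Set

namespace Pool.Agent.N799.LW

open Pool.Agent.H295R2 (Zs Zs_eq Zs_differentiable Zs_ne_zero_of_one_le)

noncomputable section

/-- the mean over the window -/
def WE (κ X : ℝ) : ℝ := ∫ x in X..(X + X / Real.log X ^ κ), |Chebyshev.psi x - x|

theorem absint (a b : ℝ) : IntervalIntegrable (fun x => |Chebyshev.psi x - x|) volume a b := by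
  apply IntervalIntegrable.abs
  apply IntervalIntegrable.sub
  · exact Chebyshev.psi_mono.intervalIntegrable
  · exact continuous_id.intervalIntegrable _ _

theorem exp_image (a b : ℝ) : Real.exp '' Ioc a b = Ioc (Real.exp a) (Real.exp b) := by
  ext x
  constructor
  · rintro ⟨u, hu, rfl⟩
    exact ⟨Real.exp_lt_exp.2 hu.1, Real.exp_le_exp.2 hu.2⟩
  · rintro ⟨h1, h2⟩
    have hx : 0 < x := (Real.exp_pos a).trans h1
    refine ⟨Real.log x, ⟨?_, ?_⟩, Real.exp_log hx⟩
    · rwa [Real.lt_log_iff_exp_lt hx]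
    · rwa [Real.log_le_iff_le_exp hx]

theorem WE_lower {κ U : ℝ} (hκ : 0 ≤ κ) (hU : 1 ≤ U) :
    Real.exp U * ∫ u in U..(U + U ^ (-κ) / 2), |ff u| ≤ WE κ (Real.exp U) := by
  have hU0 : 0 < U := by linarith
  have hκ0 : 0 < U ^ (-κ) := Real.rpow_pos_of_pos hU0 _
  have hκ1 : U ^ (-κ) ≤ 1 := by
    rw [Real.rpow_neg hU0.le]
    exact inv_le_one_of_one_le₀ (Real.one_le_rpow hU hκ)
  set L : ℝ := U ^ (-κ) / 2 with hL
  have hL0 : 0 < L := by positivity
  have hexpL : Real.exp L ≤ 1 + 2 * L := by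
    have hb := Real.abs_exp_sub_one_sub_id_le (x := L) (by rw [abs_of_pos hL0]; linarith)
    have := (abs_le.1 hb).2
    nlinarith
  unfold WE
  rw [Real.log_exp]
  have hend : Real.exp (U + L) ≤ Real.exp U + Real.exp U / U ^ κ := by
    rw [Real.exp_add, div_eq_mul_inv, ← Real.rpow_neg hU0.le]
    have : 2 * L = U ^ (-κ) := by rw [hL]; ring
    have h1 := mul_le_mul_of_nonneg_left hexpL (Real.exp_pos U).le
    rw [this] at h1
    linarith
  have h1 : ∫ x in (Real.exp U)..(Real.exp (U + L)), |Chebyshev.psi x - x| ≤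
      ∫ x in (Real.exp U)..(Real.exp U + Real.exp U / U ^ κ), |Chebyshev.psi x - x| := by
    apply intervalIntegral.integral_mono_interval le_rfl _ hend _ (absint _ _)
    · exact Real.exp_le_exp.2 (by linarith)
    · exact Eventually.of_forall fun u => abs_nonneg _
  refine le_trans ?_ h1
  rw [intervalIntegral.integral_of_le (Real.exp_le_exp.2 (by linarith)), ← exp_image,
    integral_image_eq_integral_abs_deriv_smul measurableSet_Ioc
      (fun x _ => (Real.hasDerivAt_exp x).hasDerivWithinAt) (Real.exp_injective.injOn),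
    ← intervalIntegral.integral_of_le (by linarith), ← intervalIntegral.integral_const_mul]
  apply intervalIntegral.integral_mono_on (by linarith)
  · exact ((ff_int _ _).abs).const_mul _
  · have hc : IntervalIntegrable (fun u => Real.exp u * |ff u|) volume U (U + L) :=
      ((ff_int _ _).abs).continuousOn_mul Real.continuous_exp.continuousOn
    refine hc.congr ?_
    intro u _
    simp only [smul_eq_mul, abs_of_pos (Real.exp_pos u)]
    rfl
  · intro u hu
    rw [smul_eq_mul, abs_of_pos (Real.exp_pos u)]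
    have : Real.exp U ≤ Real.exp u := Real.exp_le_exp.2 hu.1
    have h2 : |ff u| = |Chebyshev.psi (Real.exp u) - Real.exp u| := rfl
    rw [h2]
    exact mul_le_mul_of_nonneg_right this (abs_nonneg _)

/-- the lower bound for every large `X` -/
theorem window_lower {ρ₀ : ℂ} (hz : riemannZeta ρ₀ = 0) (hβ : 1 / 2 < ρ₀.re) {κ : ℝ} (hκ : 0 ≤ κ)
    (hκβ : κ * (5 - 4 * ρ₀.re) < 4 * ρ₀.re - 2) {ε : ℝ} (hε : 0 < ε) :
    ∀ᶠ X : ℝ in atTop, X ^ (1 + ρ₀.re - ε) ≤ WE κ X := by
  have h1 := asym hz hβ hκ hκβ hε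
  have h2 := (Real.tendsto_log_atTop).eventually (h1.and (eventually_ge_atTop (1 : ℝ)))
  filter_upwards [h2, eventually_gt_atTop (0 : ℝ)] with X h3 hX
  obtain ⟨h4, h5⟩ := h3
  have h6 := WE_lower hκ h5
  rw [Real.exp_log hX] at h6
  refine le_trans ?_ h6
  have e : X ^ (1 + ρ₀.re - ε) = X * Real.exp ((ρ₀.re - ε) * Real.log X) := by
    have : (1 + ρ₀.re - ε) = 1 + (ρ₀.re - ε) := by ring
    rw [this, Real.rpow_add hX, Real.rpow_one, Real.rpow_def_of_pos hX, mul_comm (Real.log X)]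
  rw [e]
  gcongr

theorem WE_upper {σ C κ : ℝ} (hσ : 0 ≤ σ) (hκ : 0 ≤ κ) (hC : 0 ≤ C)
    (h : ∀ y : ℝ, 1 ≤ y → |Chebyshev.psi y - y| ≤ C * y ^ σ) {X : ℝ} (hX : Real.exp 1 ≤ X) :
    WE κ X ≤ C * 2 ^ σ * X ^ (1 + σ) := by
  have hX1 : 1 ≤ X := le_trans (Real.one_le_exp (by norm_num)) hX
  have hX0 : 0 < X := by linarith
  have hlog : 1 ≤ Real.log X := by rwa [Real.le_log_iff_exp_le hX0]
  have hlk : 1 ≤ Real.log X ^ κ := Real.one_le_rpow hlog hκ
  have hw : X / Real.log X ^ κ ≤ X := div_le_self hX0.le hlk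
  have hw0 : 0 ≤ X / Real.log X ^ κ := by positivity
  unfold WE
  have h1 : ‖∫ x in X..(X + X / Real.log X ^ κ), |Chebyshev.psi x - x|‖ ≤
      (C * (2 * X) ^ σ) * |X + X / Real.log X ^ κ - X| := by
    apply intervalIntegral.norm_integral_le_of_norm_le_const
    intro x hx
    rw [uIoc_of_le (by linarith)] at hx
    rw [Real.norm_eq_abs, abs_abs]
    refine (h x (by linarith [hx.1])).trans ?_
    have : x ^ σ ≤ (2 * X) ^ σ := Real.rpow_le_rpow (by linarith [hx.1]) (by linarith [hx.2]) hσ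
    gcongr
  have h2 : |X + X / Real.log X ^ κ - X| ≤ X := by
    rw [add_sub_cancel_left, abs_of_nonneg hw0]
    exact hw
  refine ((le_abs_self _).trans h1).trans ?_
  calc (C * (2 * X) ^ σ) * |X + X / Real.log X ^ κ - X| ≤ (C * (2 * X) ^ σ) * X := by gcongr
    _ = C * 2 ^ σ * X ^ (1 + σ) := by
      rw [Real.mul_rpow (by norm_num) hX0.le, Real.rpow_add hX0, Real.rpow_one]
      ring

/-- zero free half planes -/
def Free (θ : ℝ) : Prop := ∀ s : ℂ, θ < s.re → riemannZeta s ≠ 0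

theorem Free.Zs {θ : ℝ} (h : Free θ) : ∀ s : ℂ, θ < s.re → Zs s ≠ 0 := by
  intro s hs h0
  rcases eq_or_ne s 1 with rfl | h1
  · exact Zs_one_ne h0
  · exact h s hs ((Zs_zero_iff h1).1 h0)

theorem psi_of_free {θ ε : ℝ} (hθ : 1 / 2 ≤ θ) (hθ1 : θ < 1) (hε : 0 < ε) (h : Free θ) :
    ∃ C : ℝ, 0 < C ∧ ∀ y : ℝ, 1 ≤ y → |Chebyshev.psi y - y| ≤ C * y ^ (θ + ε) := by
  obtain ⟨C, hC, h1⟩ := Pool.Agent.W190.Q306.psi_bound (θ := θ) (σ := min (θ + ε) 1) (by linarith) h.Zs
    (lt_min (by linarith) hθ1) (min_le_right _ _)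
  refine ⟨C, hC, fun y hy => (h1 y hy).trans ?_⟩
  have : y ^ (min (θ + ε) 1) ≤ y ^ (θ + ε) := Real.rpow_le_rpow_of_exponent_le hy (min_le_left _ _)
  gcongr

theorem upper_of_free {θ κ ε : ℝ} (hθ : 1 / 2 ≤ θ) (hθ1 : θ < 1) (hκ : 0 ≤ κ) (hε : 0 < ε) (h : Free θ) :
    ∀ᶠ X : ℝ in atTop, WE κ X ≤ X ^ (1 + θ + ε) := by
  obtain ⟨C, hC, h1⟩ := psi_of_free hθ hθ1 (by linarith : 0 < ε / 2) h
  have h2 : ∀ᶠ X : ℝ in atTop, C * 2 ^ (θ + ε / 2) ≤ X ^ (ε / 2) :=
    (tendsto_rpow_atTop (by linarith : 0 < ε / 2)).eventually_ge_atTop _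
  filter_upwards [h2, eventually_ge_atTop (Real.exp 1)] with X h3 h4
  have hX0 : 0 < X := (Real.exp_pos 1).trans_le h4
  refine (WE_upper (by linarith) hκ hC.le h1 h4).trans ?_
  calc C * 2 ^ (θ + ε / 2) * X ^ (1 + (θ + ε / 2)) ≤ X ^ (ε / 2) * X ^ (1 + (θ + ε / 2)) := by gcongr
    _ = X ^ (1 + θ + ε) := by
      rw [← Real.rpow_add hX0]
      congr 1
      ring

/-- **the local criterion** -/
theorem crit {θ κ : ℝ} (hθ : 1 / 2 ≤ θ) (hθ1 : θ < 1) (hκ : 0 ≤ κ) (hκθ : κ * (5 - 4 * θ) ≤ 4 * θ - 2) :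
    Free θ ↔ ∀ ε : ℝ, 0 < ε → ∃ᶠ X : ℝ in atTop, WE κ X ≤ X ^ (1 + θ + ε) := by
  constructor
  · intro h ε hε
    exact (upper_of_free hθ hθ1 hκ hε h).frequently
  · intro h s hs h0
    set ε : ℝ := (s.re - θ) / 3 with hε
    have hε0 : 0 < ε := by rw [hε]; linarith
    have h1 := window_lower h0 (by linarith) hκ (by nlinarith) hε0
    obtain ⟨X, h2, h3, h4⟩ := ((h ε hε0).and_eventually (h1.and (eventually_gt_atTop (1 : ℝ)))).exists
    have h5 := h3.trans h2
    have h6 : X ^ (1 + θ + ε) < X ^ (1 + s.re - ε) := by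
      apply Real.rpow_lt_rpow_of_exponent_lt h4
      rw [hε]; linarith
    linarith

lemma re_lt_one {s : ℂ} (hs : riemannZeta s = 0) : s.re < 1 := by
  by_contra h
  exact riemannZeta_ne_zero_of_one_le_re (not_lt.1 h) hs

theorem rh_free : RiemannHypothesis ↔ Free (1 / 2) := by
  constructor
  · intro hRH s hs h0
    have h1 : s.re < 1 := re_lt_one h0
    have := hRH s h0 (by
      rintro ⟨n, hn⟩
      rw [hn] at hs
      have h2 : (-2 * ((n:ℂ) + 1)).re = -2 * ((n:ℝ) + 1) := by simp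
      rw [h2] at hs
      have : (0:ℝ) ≤ n := Nat.cast_nonneg n
      linarith) (by
      rintro rfl
      norm_num at h1)
    linarith
  · intro hfree s hs htriv hs1
    have hle : s.re ≤ 1 / 2 := by
      by_contra h
      exact hfree s (not_le.1 h) hs
    have hre0 : 0 < s.re := by
      by_contra h
      push Not at h
      have hs0 : s ≠ 0 := by
        rintro rfl
        rw [riemannZeta_zero] at hs
        norm_num at hs
      have h1 : ∀ n : ℕ, (1 - s) ≠ -n := by
        intro n hn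
        have h2 := congrArg Complex.re hn
        simp at h2
        have : (0:ℝ) ≤ n := Nat.cast_nonneg n
        linarith
      have h2 : (1 - s) ≠ 1 := by
        intro h3
        apply hs0
        linear_combination -h3
      have h3 := riemannZeta_one_sub h1 h2
      rw [sub_sub_cancel, hs] at h3
      have hz : riemannZeta (1 - s) ≠ 0 := riemannZeta_ne_zero_of_one_le_re (by simp; linarith)
      have hG : Complex.Gamma (1 - s) ≠ 0 := Complex.Gamma_ne_zero h1
      have hp : (2 * (Real.pi : ℂ)) ^ (-(1 - s)) ≠ 0 := by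
        rw [Complex.cpow_def_of_ne_zero]
        · exact Complex.exp_ne_zero _
        · norm_num [Real.pi_ne_zero]
      have hc : Complex.cos (Real.pi * (1 - s) / 2) = 0 := by
        by_contra hc
        exact absurd h3.symm (mul_ne_zero (mul_ne_zero (mul_ne_zero (mul_ne_zero two_ne_zero hp) hG) hc) hz)
      rw [Complex.cos_eq_zero_iff] at hc
      obtain ⟨k, hk⟩ := hc
      have hpi : (Real.pi : ℂ) ≠ 0 := by exact_mod_cast Real.pi_ne_zero
      have hs2 : s = -2 * (k : ℂ) := by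
        field_simp at hk
        linear_combination (-1 : ℂ) * hk
      have hkpos : 0 < k := by
        have h4 := congrArg Complex.re hs2
        simp at h4
        have h5 : (0:ℝ) < k := by
          have h6 : s.re ≠ 0 := by
            intro h7
            rw [h7] at h4
            have h8 : (k:ℝ) = 0 := by linarith
            apply hs0
            have h9 : (k:ℤ) = 0 := by exact_mod_cast h8
            rw [hs2, h9]
            simp
          have h10 : s.re < 0 := lt_of_le_of_ne h h6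
          linarith
        exact_mod_cast h5
      apply htriv
      refine ⟨(k - 1).toNat, ?_⟩
      have h6 : (((k - 1).toNat : ℕ) : ℂ) = (k : ℂ) - 1 := by
        have : (((k - 1).toNat : ℤ)) = k - 1 := Int.toNat_of_nonneg (by omega)
        have h7 : (((k - 1).toNat : ℤ) : ℂ) = ((k - 1 : ℤ) : ℂ) := by rw [this]
        push_cast at h7
        exact_mod_cast h7
      rw [h6, hs2]
      ring
    -- reflection
    by_contra hne
    have hlt : s.re < 1 / 2 := lt_of_le_of_ne hle hne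
    have h1 : ∀ n : ℕ, s ≠ -n := by
      intro n hn
      have h2 := congrArg Complex.re hn
      simp at h2
      have : (0:ℝ) ≤ n := Nat.cast_nonneg n
      linarith
    have key := riemannZeta_one_sub h1 hs1
    rw [hs, mul_zero] at key
    exact hfree (1 - s) (by simp; linarith) key


/-- the supremum of the real parts of the zeros -/
def Th : ℝ := sSup {x : ℝ | ∃ s : ℂ, riemannZeta s = 0 ∧ s.re = x}

theorem bdd_re : BddAbove {x : ℝ | ∃ s : ℂ, riemannZeta s = 0 ∧ s.re = x} := by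
  refine ⟨1, ?_⟩
  rintro x ⟨s, hs, rfl⟩
  exact (re_lt_one hs).le

theorem re_le_Th {s : ℂ} (hs : riemannZeta s = 0) : s.re ≤ Th := le_csSup bdd_re ⟨s, hs, rfl⟩

theorem ne_re : {x : ℝ | ∃ s : ℂ, riemannZeta s = 0 ∧ s.re = x}.Nonempty :=
  ⟨_, _, riemannZeta_neg_two_mul_nat_add_one 0, rfl⟩

theorem Th_le_one : Th ≤ 1 := by
  refine csSup_le ne_re ?_
  rintro x ⟨s, hs, rfl⟩
  exact (re_lt_one hs).le

theorem exists_of_lt {c : ℝ} (h : c < Th) : ∃ ρ : ℂ, riemannZeta ρ = 0 ∧ c < ρ.re := by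
  obtain ⟨x, ⟨s, hs, rfl⟩, hx⟩ := exists_lt_of_lt_csSup ne_re h
  exact ⟨s, hs, hx⟩

theorem half_lt_Th (h : ¬ RiemannHypothesis) : 1 / 2 < Th := by
  rw [rh_free] at h
  unfold Free at h
  push Not at h
  obtain ⟨s, h1, h2⟩ := h
  exact lt_of_lt_of_le h1 (re_le_Th h2)

theorem psi_of_Th {ε : ℝ} (hΘ : 1 / 2 ≤ Th) (hε : 0 < ε) : ∃ C : ℝ, 0 < C ∧ ∀ y : ℝ, 1 ≤ y →
    |Chebyshev.psi y - y| ≤ C * y ^ (Th + ε) := by
  rcases lt_or_eq_of_le Th_le_one with h | h
  · refine psi_of_free hΘ h hε fun s hs h0 => ?_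
    have := re_le_Th h0
    linarith
  · refine ⟨Real.log 4 + 5, by positivity, fun y hy => ?_⟩
    have h1 := Chebyshev.psi_le_const_mul_self (x := y) (by linarith)
    have h2 := Chebyshev.psi_nonneg y
    have h3 : y ≤ y ^ (Th + ε) := by
      rw [h]
      calc y = y ^ (1 : ℝ) := (Real.rpow_one y).symm
        _ ≤ y ^ (1 + ε) := Real.rpow_le_rpow_of_exponent_le hy (by linarith)
    have hl : 0 < Real.log 4 := Real.log_pos (by norm_num)
    have h4 : |Chebyshev.psi y - y| ≤ (Real.log 4 + 5) * y := by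
      rw [abs_le]
      constructor <;> nlinarith
    refine h4.trans ?_
    gcongr

/-- the exponent of the mean over every window -/
theorem exponent (hRH : ¬ RiemannHypothesis) {κ : ℝ} (hκ : 0 ≤ κ) (hκΘ : κ * (5 - 4 * Th) < 4 * Th - 2) :
    Tendsto (fun X : ℝ => Real.log (WE κ X) / Real.log X) atTop (𝓝 (1 + Th)) := by
  have hΘ := half_lt_Th hRH
  have hΘ1 := Th_le_one
  rw [Metric.tendsto_nhds]
  intro ε hε
  -- a zero close to the supremum
  set s : ℝ := min (ε / 4) (min ((Th - 1 / 2) / 2) ((4 * Th - 2 - κ * (5 - 4 * Th)) / (2 * (4 + 4 * κ)))) with hs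
  have hs0 : 0 < s := by
    refine lt_min (by linarith) (lt_min (by linarith) ?_)
    exact div_pos (by linarith) (by positivity)
  have hs1 : s ≤ ε / 4 := min_le_left _ _
  have hs2 : s ≤ (Th - 1 / 2) / 2 := (min_le_right _ _).trans (min_le_left _ _)
  have hs3 : s ≤ (4 * Th - 2 - κ * (5 - 4 * Th)) / (2 * (4 + 4 * κ)) :=
    (min_le_right _ _).trans (min_le_right _ _)
  obtain ⟨ρ, h1, h2⟩ := exists_of_lt (show Th - s < Th by linarith)
  have hρ : 1 / 2 < ρ.re := by linarith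
  have h3 : κ * (5 - 4 * ρ.re) < 4 * ρ.re - 2 := by
    rw [le_div_iff₀ (by positivity)] at hs3
    have : κ * (5 - 4 * ρ.re) ≤ κ * (5 - 4 * (Th - s)) := by gcongr
    nlinarith
  have h4 := window_lower h1 hρ hκ h3 (ε := ε / 4) (by linarith)
  obtain ⟨C, hC, h5⟩ := psi_of_Th hΘ.le (by linarith : 0 < ε / 4)
  have h6 : ∀ᶠ X : ℝ in atTop, C * 2 ^ (Th + ε / 4) ≤ X ^ (ε / 4) :=
    (tendsto_rpow_atTop (by linarith : 0 < ε / 4)).eventually_ge_atTop _
  filter_upwards [h4, h6, eventually_ge_atTop (Real.exp 1)] with X g1 g2 g3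
  have hX0 : 0 < X := (Real.exp_pos 1).trans_le g3
  have hlog : 1 ≤ Real.log X := by rwa [Real.le_log_iff_exp_le hX0]
  have hlog0 : 0 < Real.log X := by linarith
  have g4 := WE_upper (by linarith) hκ hC.le h5 g3
  have g5 : WE κ X ≤ X ^ (1 + Th + ε / 2) := by
    refine g4.trans ?_
    calc C * 2 ^ (Th + ε / 4) * X ^ (1 + (Th + ε / 4)) ≤ X ^ (ε / 4) * X ^ (1 + (Th + ε / 4)) := by gcongr
      _ = _ := by
        rw [← Real.rpow_add hX0]
        congr 1
        ring
  have g6 : X ^ (1 + Th - ε / 2) ≤ WE κ X := by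
    refine le_trans ?_ g1
    apply Real.rpow_le_rpow_of_exponent_le (by linarith [Real.add_one_le_exp (1 : ℝ)])
    linarith
  have hW0 : 0 < WE κ X := lt_of_lt_of_le (Real.rpow_pos_of_pos hX0 _) g6
  have g7 := Real.log_le_log hW0 g5
  have g8 := Real.log_le_log (Real.rpow_pos_of_pos hX0 _) g6
  rw [Real.log_rpow hX0] at g7 g8
  rw [Real.dist_eq, abs_lt]
  constructor
  · have : 1 + Th - ε / 2 ≤ Real.log (WE κ X) / Real.log X := by
      rw [le_div_iff₀ hlog0]; exact g8
    linarith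
  · have : Real.log (WE κ X) / Real.log X ≤ 1 + Th + ε / 2 := by
      rw [div_le_iff₀ hlog0]; exact g7
    linarith

theorem rh_pointwise : RiemannHypothesis ↔ ∀ ε : ℝ, 0 < ε → ∃ᶠ X : ℝ in atTop,
    ∀ x ∈ Icc X (2 * X), |Chebyshev.psi x - x| ≤ x ^ (1 / 2 + ε) := by
  constructor
  · intro h ε hε
    rw [rh_free] at h
    obtain ⟨C, hC, h1⟩ := psi_of_free (by norm_num) (by norm_num) (by linarith : 0 < ε / 2) h
    have h2 : ∀ᶠ X : ℝ in atTop, C ≤ X ^ (ε / 2) :=
      (tendsto_rpow_atTop (by linarith : 0 < ε / 2)).eventually_ge_atTop _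
    apply Eventually.frequently
    filter_upwards [h2, eventually_ge_atTop (1 : ℝ)] with X h3 h4 x hx
    have hx1 : 1 ≤ x := h4.trans hx.1
    refine (h1 x hx1).trans ?_
    have h5 : C ≤ x ^ (ε / 2) := h3.trans (Real.rpow_le_rpow (by linarith) hx.1 (by linarith))
    calc C * x ^ (1 / 2 + ε / 2) ≤ x ^ (ε / 2) * x ^ (1 / 2 + ε / 2) := by gcongr
      _ = x ^ (1 / 2 + ε) := by
        rw [← Real.rpow_add (by linarith)]
        congr 1
        ring
  · intro h
    rw [rh_free, crit (κ := 0) (by norm_num) (by norm_num) le_rfl (by norm_num)]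
    intro ε hε
    have h1 := h (ε / 2) (by linarith)
    have h2 : ∀ᶠ X : ℝ in atTop, (2 : ℝ) ^ (1 / 2 + ε / 2) ≤ X ^ (ε / 2) :=
      (tendsto_rpow_atTop (by linarith : 0 < ε / 2)).eventually_ge_atTop _
    refine (h1.and_eventually (h2.and (eventually_ge_atTop (1 : ℝ)))).mono ?_
    rintro X ⟨h3, h4, h5⟩
    have hX0 : 0 < X := by linarith
    unfold WE
    rw [Real.rpow_zero, div_one]
    have h6 : ‖∫ x in X..(X + X), |Chebyshev.psi x - x|‖ ≤ ((2 * X) ^ (1 / 2 + ε / 2)) * |X + X - X| := by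
      apply intervalIntegral.norm_integral_le_of_norm_le_const
      intro x hx
      rw [uIoc_of_le (by linarith)] at hx
      rw [Real.norm_eq_abs, abs_abs]
      refine (h3 x ⟨hx.1.le, by linarith [hx.2]⟩).trans ?_
      exact Real.rpow_le_rpow (by linarith [hx.1]) (by linarith [hx.2]) (by linarith)
    refine ((le_abs_self _).trans h6).trans ?_
    rw [add_sub_cancel_left, abs_of_pos hX0, Real.mul_rpow (by norm_num) hX0.le]
    calc (2 : ℝ) ^ (1 / 2 + ε / 2) * X ^ (1 / 2 + ε / 2) * X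
        ≤ X ^ (ε / 2) * X ^ (1 / 2 + ε / 2) * X ^ (1 : ℝ) := by rw [Real.rpow_one]; gcongr
      _ = X ^ (1 + 1 / 2 + ε) := by
        rw [← Real.rpow_add hX0, ← Real.rpow_add hX0]
        congr 1
        ring

theorem rh_short : RiemannHypothesis ↔ ∀ ε κ : ℝ, 0 < ε → 0 < κ → ∃ᶠ X : ℝ in atTop,
    WE κ X ≤ X ^ (3 / 2 + ε) := by
  constructor
  · intro h ε κ hε hκ
    rw [rh_free] at h
    have := (upper_of_free (by norm_num) (by norm_num) hκ.le hε h).frequently
    refine this.mono fun X hX => ?_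
    have e : (1 : ℝ) + 1 / 2 + ε = 3 / 2 + ε := by ring
    rwa [e] at hX
  · intro h
    by_contra hRH
    obtain ⟨ρ, h1, h2⟩ := exists_of_lt (half_lt_Th hRH)
    have h3 := re_lt_one h1
    have hκ : 0 < (4 * ρ.re - 2) / 6 := by linarith
    have h4 := window_lower h1 h2 hκ.le (by nlinarith) (ε := (ρ.re - 1 / 2) / 3) (by linarith)
    obtain ⟨X, g1, g2, g3⟩ := ((h ((ρ.re - 1 / 2) / 3) _ (by linarith) hκ).and_eventually
      (h4.and (eventually_gt_atTop (1 : ℝ)))).exists
    have g4 := g2.trans g1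
    have g5 : X ^ (3 / 2 + (ρ.re - 1 / 2) / 3) < X ^ (1 + ρ.re - (ρ.re - 1 / 2) / 3) := by
      apply Real.rpow_lt_rpow_of_exponent_lt g3
      linarith
    linarith

end

end Pool.Agent.N799.LW
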