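import Pool.Agent.N799.LW.Count

/-!
# The lower bound in every window, in the logarithmic scale
-/

set_option autoImplicit false

open MeasureTheory Filter Topology Set

namespace Pool.Agent.N799.LW

noncomputable section

theorem ev_log {A B q : ℝ} (hq : 0 < q) : ∀ᶠ U : ℝ in atTop, A + B * Real.log U ≤ U ^ q := by
  have h1 : (fun _ : ℝ => A) =o[atTop] fun U : ℝ => U ^ q := by
    apply Asymptotics.isLittleO_const_left.2
    right
    exact tendsto_norm_atTop_atTop.comp (tendsto_rpow_atTop hq)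
  have h2 : (fun U : ℝ => B * Real.log U) =o[atTop] fun U : ℝ => U ^ q :=
    (isLittleO_log_rpow_atTop hq).const_mul_left B
  have h3 := (h1.add h2).bound (c := 1) one_pos
  filter_upwards [h3, eventually_ge_atTop (0 : ℝ)] with U h4 h5
  rw [one_mul, Real.norm_of_nonneg (Real.rpow_nonneg h5 q)] at h4
  exact (le_abs_self _).trans h4

theorem asym {ρ₀ : ℂ} (hz : riemannZeta ρ₀ = 0) (hβ : 1 / 2 < ρ₀.re) {κ : ℝ} (hκ : 0 ≤ κ)
    (hκβ : κ * (5 - 4 * ρ₀.re) < 4 * ρ₀.re - 2) {ε : ℝ} (hε : 0 < ε) :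
    ∀ᶠ U : ℝ in atTop, Real.exp ((ρ₀.re - ε) * U) ≤ ∫ u in U..(U + U ^ (-κ) / 2), |ff u| := by
  set β := ρ₀.re with hβd
  have hβ1 : β < 1 := by
    by_contra hcon
    exact riemannZeta_ne_zero_of_one_le_re (not_lt.1 hcon) hz
  have hκ1 : 0 < 1 + κ := by linarith
  set a0 : ℝ := (5 - 4 * β) / 3 with ha0
  have ha01 : (1 + κ) * a0 < 1 := by
    rw [ha0]
    nlinarith
  have ha0' : a0 < 1 / (1 + κ) := by
    rw [lt_div_iff₀ hκ1]
    linarith
  set s : ℝ := min ((1 / (1 + κ) - a0) / 4) ((β - 1 / 2) / 2) with hs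
  have hs0 : 0 < s := lt_min (by linarith) (by linarith)
  have hs1 : s ≤ (1 / (1 + κ) - a0) / 4 := min_le_left _ _
  have hs2 : s ≤ (β - 1 / 2) / 2 := min_le_right _ _
  set θ : ℝ := β - s with hθ
  have hθ1 : 1 / 2 ≤ θ := by linarith
  have hθ2 : θ ≤ 1 := by linarith
  set a : ℝ := 1 - (4 / 3 - s) * (θ - 1 / 2) with ha
  have ha1 : a ≤ a0 + 2 * s := by
    rw [ha, hθ, ha0]
    nlinarith
  have ha2 : 0 < a := by
    rw [ha]
    nlinarith
  set b : ℝ := (1 + κ) * a with hb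
  have hb1 : b < 1 := by
    have h1 : b ≤ (1 + κ) * (a0 + 2 * s) := by rw [hb]; gcongr
    have h2 : (1 + κ) * (a0 + 2 * s) ≤ (1 + κ) * (a0 + (1 / (1 + κ) - a0) / 2) := by
      gcongr
      linarith
    have h3 : (1 + κ) * (a0 + (1 / (1 + κ) - a0) / 2) = ((1 + κ) * a0 + 1) / 2 := by
      field_simp
      ring
    linarith
  set q : ℝ := (1 - b) / 3 with hq
  have hq0 : 0 < q := by rw [hq]; linarith
  have hb0 : 0 < b := by positivity
  have hq1 : q < 1 := by rw [hq]; linarith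
  obtain ⟨C, hC, hkey⟩ := key (θ := θ) hz (by linarith) (by linarith)
  obtain ⟨C', hC', hcount⟩ := ncard_le (c := 4 / 3 - s) hθ1 hθ2 (by linarith)
  set ε' : ℝ := min (min ε s) 1 / 4 with hε'
  have hε'0 : 0 < ε' := by
    rw [hε']
    have : 0 < min (min ε s) 1 := lt_min (lt_min hε hs0) one_pos
    linarith
  have hε'1 : 4 * ε' ≤ ε := by
    rw [hε']; linarith [(min_le_left (min ε s) 1).trans (min_le_left ε s)]
  have hε'2 : 4 * ε' ≤ s := by
    rw [hε']; linarith [(min_le_left (min ε s) 1).trans (min_le_right ε s)]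
  have hε'3 : 4 * ε' ≤ 1 := by
    rw [hε']; linarith [min_le_right (min ε s) 1]
  set K : ℝ := 183 * C with hK
  have hK1 : 1 ≤ K := by rw [hK]; linarith
  have e1 := ev_log (A := Real.log (C * K)) (B := 1 + κ) hq0
  have e2 : ∀ᶠ U : ℝ in atTop, C' * K ^ a / ε' ≤ U ^ q := (tendsto_rpow_atTop hq0).eventually_ge_atTop _
  have e3 : ∀ᶠ U : ℝ in atTop, 3 / ε' ≤ U ^ (1 - q) :=
    (tendsto_rpow_atTop (by linarith : 0 < 1 - q)).eventually_ge_atTop _
  filter_upwards [e1, e2, e3, eventually_ge_atTop (5 : ℝ), eventually_ge_atTop (1 / ε')] with U f1 f2 f3 f4 f5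
  have hU0 : 0 < U := by linarith
  have hU1 : 1 ≤ U := by linarith
  have hUq1 : 1 ≤ U ^ q := Real.one_le_rpow hU1 hq0.le
  have hUκ : 1 ≤ U ^ κ := Real.one_le_rpow hU1 hκ
  have hUκ' : U ^ (-κ) = (U ^ κ)⁻¹ := Real.rpow_neg hU0.le κ
  have hUκ1 : U ^ (-κ) ≤ 1 := by rw [hUκ']; exact inv_le_one_of_one_le₀ hUκ
  have hUκ0 : 0 < U ^ (-κ) := Real.rpow_pos_of_pos hU0 _
  have hεU : 1 ≤ ε' * U := by
    rw [div_le_iff₀ hε'0] at f5
    linarith
  set M : ℕ := ⌈2 * U⌉₊ with hM
  have hM1 : 2 * U ≤ M := Nat.le_ceil _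
  have hM2 : (M : ℝ) ≤ 3 * U := by
    have := Nat.ceil_lt_add_one (show 0 ≤ 2 * U by linarith)
    linarith
  have hM0 : (0 : ℝ) < M := by linarith
  set δ : ℝ := U ^ (-κ) / (2 * C) / M with hδ
  have hδ0 : 0 < δ := by positivity
  have hMδ : M * δ = U ^ (-κ) / (2 * C) := by rw [hδ]; field_simp
  set T1 : ℝ := 30 / δ with hT1
  have hT1e : T1 = 60 * C * M * U ^ κ := by
    rw [hT1, hδ, hUκ']
    field_simp
    ring
  have hT1C : 60 * C ≤ T1 := by
    rw [hT1e]
    have h1 : 1 ≤ (M : ℝ) := by linarith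
    have h2 : 1 ≤ (M : ℝ) * U ^ κ := one_le_mul_of_one_le_of_one_le h1 hUκ
    calc 60 * C = 60 * C * 1 := by ring
      _ ≤ 60 * C * (M * U ^ κ) := by gcongr
      _ = _ := by ring
  obtain ⟨T, hT, hfin, hmain⟩ := hkey T1 (by linarith)
  have hTK : T ≤ K * U ^ (1 + κ) := by
    have h1 : T ≤ T1 + 1 := hT.2
    have h2 : T1 ≤ 180 * C * U ^ (1 + κ) := by
      rw [hT1e, Real.rpow_add hU0, Real.rpow_one]
      calc 60 * C * M * U ^ κ ≤ 60 * C * (3 * U) * U ^ κ := by gcongr
        _ = _ := by ring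
    have h3 : 1 ≤ U ^ (1 + κ) := Real.one_le_rpow hU1 hκ1.le
    rw [hK]
    nlinarith
  have hT2 : 60 ≤ T := by linarith [hT.1]
  have hT0 : 0 < T := by linarith
  have hCT : C * T ≤ C * K * U ^ (1 + κ) := by
    calc C * T ≤ C * (K * U ^ (1 + κ)) := by gcongr
      _ = _ := by ring
  have hlogCT : Real.log (C * T) ≤ U ^ q := by
    refine (Real.log_le_log (by positivity) hCT).trans ?_
    rw [Real.log_mul (by positivity) (by positivity), Real.log_rpow hU0]
    exact f1
  have hlogT : Real.log T ≤ Real.log (C * T) := Real.log_le_log hT0 (by nlinarith)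
  have hlogT0 : 0 ≤ Real.log T := Real.log_nonneg (by linarith)
  set n : ℕ := (RZ T ∩ {ρ | θ < ρ.re}).ncard with hn
  have hn1 : (n : ℝ) ≤ C' * (K ^ a * U ^ b) * U ^ q := by
    refine (hcount T (by linarith)).trans ?_
    have h1 : T ^ a ≤ K ^ a * U ^ b := by
      calc T ^ a ≤ (K * U ^ (1 + κ)) ^ a := Real.rpow_le_rpow hT0.le hTK ha2.le
        _ = K ^ a * U ^ b := by
          rw [Real.mul_rpow (by linarith) (by positivity), ← Real.rpow_mul hU0.le]
    calc C' * T ^ (1 - (4 / 3 - s) * (θ - 1 / 2)) * Real.log T = C' * T ^ a * Real.log T := by rw [ha]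
      _ ≤ C' * (K ^ a * U ^ b) * U ^ q := by
        gcongr
        exact hlogT.trans hlogCT
  have hn2 : (n : ℝ) * U ^ q ≤ ε' * U := by
    have h1 : U ^ b * U ^ q * U ^ q * U ^ q = U := by
      rw [← Real.rpow_add hU0, ← Real.rpow_add hU0, ← Real.rpow_add hU0]
      have : b + q + q + q = 1 := by rw [hq]; ring
      rw [this, Real.rpow_one]
    have h2 : C' * K ^ a ≤ ε' * U ^ q := by
      rw [div_le_iff₀ hε'0] at f2
      linarith
    calc (n : ℝ) * U ^ q ≤ C' * (K ^ a * U ^ b) * U ^ q * U ^ q := by gcongr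
      _ = (C' * K ^ a) * (U ^ b * U ^ q * U ^ q) := by ring
      _ ≤ (ε' * U ^ q) * (U ^ b * U ^ q * U ^ q) := by gcongr
      _ = ε' * (U ^ b * U ^ q * U ^ q * U ^ q) := by ring
      _ = ε' * U := by rw [h1]
  have hn3 : (n : ℝ) ≤ ε' * U := by
    have : (n : ℝ) ≤ n * U ^ q := by
      have h0 : (0 : ℝ) ≤ n := Nat.cast_nonneg n
      nlinarith
    linarith
  have hn4 : n + 5 ≤ M := by
    have : (n : ℝ) + 5 ≤ M := by nlinarith
    exact_mod_cast this
  have hexp : Real.exp (3 / 2 * U) ≤ 10 ^ M := by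
    have h1 : Real.exp 2 ≤ 10 := by
      have h2 : Real.exp 2 = Real.exp 1 * Real.exp 1 := by rw [← Real.exp_add]; norm_num
      have := Real.exp_one_lt_d9
      have h3 := Real.exp_pos 1
      rw [h2]
      nlinarith
    calc Real.exp (3 / 2 * U) ≤ Real.exp (M * 2) := Real.exp_le_exp.2 (by linarith)
      _ = Real.exp 2 ^ M := by rw [← Real.exp_nat_mul]
      _ ≤ 10 ^ M := pow_le_pow_left₀ (Real.exp_pos _).le h1 M
  have hk := hmain U δ M hU0.le hδ0 (by
      rw [hMδ]
      have : C * (U ^ (-κ) / (2 * C)) = U ^ (-κ) / 2 := by field_simp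
      rw [this]; linarith) (by rw [hT1]; field_simp; exact le_rfl) hn4 hexp
  have hCT0 : 0 < C * T := by positivity
  have g1 : (C * T) ^ n ≤ Real.exp (ε' * U) := by
    calc (C * T) ^ n = Real.exp (n * Real.log (C * T)) := by
          rw [Real.exp_nat_mul, Real.exp_log hCT0]
      _ ≤ Real.exp (ε' * U) := by
          apply Real.exp_le_exp.2
          refine le_trans ?_ hn2
          gcongr
  have g2 : C * T ^ 3 ≤ Real.exp (ε' * U) := by
    have h1 : 3 * U ^ q ≤ ε' * U := by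
      have h2 : U ^ q * U ^ (1 - q) = U := by
        rw [← Real.rpow_add hU0]
        have : q + (1 - q) = 1 := by ring
        rw [this, Real.rpow_one]
      rw [div_le_iff₀ hε'0] at f3
      calc 3 * U ^ q ≤ (U ^ (1 - q) * ε') * U ^ q := by gcongr
        _ = ε' * (U ^ q * U ^ (1 - q)) := by ring
        _ = _ := by rw [h2]
    calc C * T ^ 3 ≤ (C * T) ^ 3 := by
          rw [mul_pow]
          have : C ≤ C ^ 3 := le_self_pow₀ hC (by norm_num)
          gcongr
      _ = Real.exp ((3 : ℕ) * Real.log (C * T)) := by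
          rw [Real.exp_nat_mul, Real.exp_log hCT0]
      _ ≤ Real.exp (ε' * U) := by
          apply Real.exp_le_exp.2
          push_cast
          linarith
  set J : ℝ := ∫ u in U..(U + M * δ), |ff u| with hJ
  have hJ0 : 0 ≤ J := intervalIntegral.integral_nonneg (by
    rw [hMδ]
    have : 0 ≤ U ^ (-κ) / (2 * C) := by positivity
    linarith) fun u _ => abs_nonneg _
  have g3 : Real.exp (β * U) ≤ Real.exp (2 * ε' * U) * (J + Real.exp (θ * U)) := by
    have hpos : 0 ≤ J + Real.exp (θ * U) := by positivity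
    calc Real.exp (β * U) ≤ C * T ^ 3 * (C * T) ^ n * (J + Real.exp (θ * U)) := hk
      _ ≤ Real.exp (ε' * U) * Real.exp (ε' * U) * (J + Real.exp (θ * U)) := by gcongr
      _ = _ := by
        rw [← Real.exp_add]
        congr 2
        ring
  have g4 : Real.exp ((β - 2 * ε') * U) ≤ J + Real.exp (θ * U) := by
    have : Real.exp (β * U) = Real.exp (2 * ε' * U) * Real.exp ((β - 2 * ε') * U) := by
      rw [← Real.exp_add]; congr 1; ring
    rw [this] at g3
    exact le_of_mul_le_mul_left g3 (Real.exp_pos _)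
  have h2e : (2 : ℝ) ≤ Real.exp 1 := by linarith [Real.exp_one_gt_d9]
  have g5 : 2 * Real.exp (θ * U) ≤ Real.exp ((β - 2 * ε') * U) := by
    calc 2 * Real.exp (θ * U) ≤ Real.exp 1 * Real.exp (θ * U) := by gcongr
      _ = Real.exp (1 + θ * U) := by rw [Real.exp_add]
      _ ≤ _ := Real.exp_le_exp.2 (by rw [hθ]; nlinarith)
  have g6 : 2 * Real.exp ((β - ε) * U) ≤ Real.exp ((β - 2 * ε') * U) := by
    calc 2 * Real.exp ((β - ε) * U) ≤ Real.exp 1 * Real.exp ((β - ε) * U) := by gcongr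
      _ = Real.exp (1 + (β - ε) * U) := by rw [Real.exp_add]
      _ ≤ _ := Real.exp_le_exp.2 (by nlinarith)
  have g7 : Real.exp ((β - ε) * U) ≤ J := by linarith
  refine g7.trans ?_
  rw [hJ]
  apply intervalIntegral.integral_mono_interval le_rfl _ _ _ ((ff_int _ _).abs)
  · rw [hMδ]
    have : 0 ≤ U ^ (-κ) / (2 * C) := by positivity
    linarith
  · rw [hMδ]
    have : U ^ (-κ) / (2 * C) ≤ U ^ (-κ) / 2 := by
      apply div_le_div_of_nonneg_left hUκ0.le (by norm_num)
      linarith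
    linarith
  · exact Eventually.of_forall fun u => abs_nonneg _

end

end Pool.Agent.N799.LW
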