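import Pool.Agent.N799.LW.Ops

/-!
# The operators applied to `ψ(e^u) - e^u`
-/

set_option autoImplicit false

open MeasureTheory Filter Topology Set

namespace Pool.Agent.N799.LW

open Pool.Agent.H295R2 (Nice Lap avg phi step step_nice Lap_step)

noncomputable section

/-- `ψ(e^u) - e^u` -/
def ff (u : ℝ) : ℝ := Chebyshev.psi (Real.exp u) - Real.exp u

theorem ff_meas : Measurable ff := by
  unfold ff
  exact ((Chebyshev.psi_mono.measurable).comp Real.measurable_exp).sub Real.measurable_exp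

theorem ff_int (a b : ℝ) : IntervalIntegrable ff volume a b := by
  unfold ff
  apply IntervalIntegrable.sub
  · exact (Chebyshev.psi_mono.comp Real.exp_monotone).intervalIntegrable
  · exact Real.continuous_exp.intervalIntegrable _ _

theorem ff_intC (a b : ℝ) : IntervalIntegrable (fun v => ((ff v : ℝ) : ℂ)) volume a b :=
  ⟨(ff_int a b).1.ofReal, (ff_int a b).2.ofReal⟩

/-- the truncated sum -/
def PN (N : ℕ) (u : ℝ) : ℂ :=
  ∑ n ∈ Finset.Icc 1 N, ((ArithmeticFunction.vonMangoldt n : ℝ) : ℂ) * step (u - Real.log n)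

theorem PN_eq {N : ℕ} {u : ℝ} (hN : 1 ≤ N) (hu : u ≤ Real.log N) :
    PN N u = ((ff u : ℝ) : ℂ) + Complex.exp u := by
  have hN0 : (0 : ℝ) < N := by exact_mod_cast hN
  have h1 : Real.exp u ≤ N := by
    calc Real.exp u ≤ Real.exp (Real.log N) := Real.exp_le_exp.2 hu
      _ = N := Real.exp_log hN0
  have h2 : Chebyshev.psi (Real.exp u) = ∑ n ∈ Finset.Ioc 0 ⌊Real.exp u⌋₊, ArithmeticFunction.vonMangoldt n := rfl
  have h3 : PN N u = ((Chebyshev.psi (Real.exp u) : ℝ) : ℂ) := by
    unfold PN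
    rw [h2, Complex.ofReal_sum]
    symm
    have hfl : ⌊Real.exp u⌋₊ ≤ N := by
      have := Nat.floor_le_floor h1
      rwa [Nat.floor_natCast] at this
    refine Finset.sum_subset_zero_on_sdiff (fun n hn => ?_) (fun n hn => ?_) (fun n hn => ?_)
    · rw [Finset.mem_Ioc] at hn
      rw [Finset.mem_Icc]
      omega
    · rw [Finset.mem_sdiff, Finset.mem_Icc, Finset.mem_Ioc] at hn
      have hn1 : ⌊Real.exp u⌋₊ < n := by
        by_contra hcon
        exact hn.2 ⟨by omega, by omega⟩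
      have hn2 : Real.exp u < n := (Nat.floor_lt (Real.exp_pos _).le).1 hn1
      have hn3 : u < Real.log n := by
        have := Real.log_lt_log (Real.exp_pos _) hn2
        rwa [Real.log_exp] at this
      unfold step
      rw [if_neg (by linarith), mul_zero]
    · rw [Finset.mem_Ioc] at hn
      have hn0 : (0 : ℝ) < n := by exact_mod_cast hn.1
      have hn2 : (n : ℝ) ≤ Real.exp u := (Nat.le_floor_iff (Real.exp_pos _).le).1 hn.2
      have hn3 : Real.log n ≤ u := by
        have := Real.log_le_log hn0 hn2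
        rwa [Real.log_exp] at this
      unfold step
      rw [if_pos (by linarith), mul_one]
  rw [h3]
  unfold ff
  push_cast
  ring

theorem avg_exp {δ : ℝ} (hδ : 0 < δ) (u : ℝ) :
    avg δ (fun v : ℝ => Complex.exp v) u = phi δ 1 * Complex.exp u := by
  have hδ0 : (δ : ℂ) ≠ 0 := by exact_mod_cast hδ.ne'
  unfold avg
  have e : ∀ v : ℝ, Complex.exp ((u + v : ℝ) : ℂ) = Complex.exp u * Complex.exp ((1 : ℂ) * v) := by
    intro v
    rw [← Complex.exp_add]
    congr 1
    push_cast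
    ring
  simp only [e]
  rw [intervalIntegral.integral_const_mul, integral_exp_mul_complex one_ne_zero]
  unfold phi
  simp only [Complex.ofReal_zero, mul_zero, Complex.exp_zero, one_mul]
  field_simp

theorem avg_PN {δ : ℝ} (hδ : 0 < δ) {N : ℕ} (hN : 1 ≤ N) {u : ℝ} (hu : u + δ ≤ Real.log N) :
    avg δ (PN N) u = avg δ (fun v => ((ff v : ℝ) : ℂ)) u + phi δ 1 * Complex.exp u := by
  rw [← avg_exp hδ u]
  unfold avg
  rw [← mul_add, ← intervalIntegral.integral_add]
  · congr 1
    apply intervalIntegral.integral_congr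
    intro v hv
    rw [uIcc_of_le hδ.le] at hv
    exact PN_eq hN (by linarith [hv.2])
  · have h2 := (ff_intC u (u + δ)).comp_add_left u
    simpa using h2
  · exact (by fun_prop : Continuous fun v : ℝ => Complex.exp ((u + v : ℝ) : ℂ)).intervalIntegrable _ _

theorem op_PN {δ : ℝ} (hδ : 0 < δ) {N : ℕ} (hN : 1 ≤ N) {u : ℝ} (hu : u + 2 * δ ≤ Real.log N) (α : ℂ) :
    op δ (α, -α) (avg δ (PN N)) u = op δ (α, -α) (avg δ fun v => ((ff v : ℝ) : ℂ)) u := by
  have hδ0 : (δ : ℂ) ≠ 0 := by exact_mod_cast hδ.ne'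
  have h1 := avg_PN hδ hN (u := u) (by linarith)
  have h2 := avg_PN hδ hN (u := u + δ) (by linarith)
  have h3 : avg δ (avg δ (PN N)) u = avg δ (avg δ fun v => ((ff v : ℝ) : ℂ)) u +
      phi δ 1 * (phi δ 1 * Complex.exp u) := by
    rw [← avg_exp hδ u]
    have e1 : phi δ 1 * avg δ (fun v : ℝ => Complex.exp v) u =
        avg δ (fun v : ℝ => phi δ 1 * Complex.exp v) u := by
      unfold avg
      rw [intervalIntegral.integral_const_mul]
      ring
    rw [e1]
    have u1 : avg δ (avg δ (PN N)) u = (1 / (δ : ℂ)) * ∫ v in (0:ℝ)..δ, avg δ (PN N) (u + v) := rfl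
    have u2 : avg δ (avg δ fun v => ((ff v : ℝ) : ℂ)) u =
        (1 / (δ : ℂ)) * ∫ v in (0:ℝ)..δ, avg δ (fun v => ((ff v : ℝ) : ℂ)) (u + v) := rfl
    have u3 : avg δ (fun v : ℝ => phi δ 1 * Complex.exp v) u =
        (1 / (δ : ℂ)) * ∫ v in (0:ℝ)..δ, phi δ 1 * Complex.exp ((u + v : ℝ) : ℂ) := rfl
    rw [u1, u2, u3, ← mul_add, ← intervalIntegral.integral_add]
    · congr 1
      apply intervalIntegral.integral_congr
      intro v hv
      rw [uIcc_of_le hδ.le] at hv
      exact avg_PN hδ hN (u := u + v) (by linarith [hv.2])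
    · have hc : Continuous (avg δ fun v => ((ff v : ℝ) : ℂ)) := by
        unfold avg
        refine continuous_const.mul ?_
        have h1 : ∀ u : ℝ, ∫ v in (0:ℝ)..δ, ((ff (u + v) : ℝ) : ℂ) =
            (∫ v in (0:ℝ)..(u + δ), ((ff v : ℝ) : ℂ)) - ∫ v in (0:ℝ)..u, ((ff v : ℝ) : ℂ) := by
          intro u
          rw [intervalIntegral.integral_comp_add_left (fun v => ((ff v : ℝ) : ℂ)) u, add_zero,
            intervalIntegral.integral_interval_sub_left]
          · exact ff_intC _ _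
          · exact ff_intC _ _
        simp only [h1]
        have h2 : Continuous fun u : ℝ => ∫ v in (0:ℝ)..u, ((ff v : ℝ) : ℂ) :=
          intervalIntegral.continuous_primitive (fun a b => ff_intC a b) 0
        exact (h2.comp (continuous_id.add continuous_const)).sub h2
      exact (hc.comp (continuous_const.add continuous_id)).intervalIntegrable _ _
    · exact (by fun_prop : Continuous fun v : ℝ => phi δ 1 * Complex.exp ((u + v : ℝ) : ℂ)).intervalIntegrable _ _
  unfold op
  simp only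
  rw [h1, h2, h3]
  have e : Complex.exp ((u + δ : ℝ) : ℂ) = Complex.exp u * Complex.exp δ := by
    rw [← Complex.exp_add]; push_cast; rfl
  rw [e]
  unfold phi
  field_simp
  ring

/-- the sum against the kernel is bounded by the mean of `|ψ(e^u) - e^u|` -/
theorem H_bound {δ U S : ℝ} (hδ : 0 < δ) (l : List (ℂ × ℂ)) (α : ℂ) {N : ℕ} (hN : 1 ≤ N)
    (hN2 : U + (l.length + 4) * δ ≤ Real.log N)
    (hS : ∀ u ∈ Icc U (U + (l.length + 3) * δ), ∫ v in u..(u + δ), |ff v| ≤ δ * S) :
    ‖∑ n ∈ Finset.Icc 1 N, ((ArithmeticFunction.vonMangoldt n : ℝ) : ℂ) *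
      avg δ (avg δ (ops δ l (op δ (α, -α) (avg δ step)))) (U - Real.log n)‖ ≤
      (l.map (wt δ)).prod * (wt δ (α, -α) * S) := by
  have n1 := step_nice.avg hδ
  have n2 := op_nice hδ (α, -α) n1
  have n3 := ops_nice hδ l n2
  have n4 := n3.avg hδ
  have e1 : avg δ (PN N) = fun u => ∑ n ∈ Finset.Icc 1 N,
      ((ArithmeticFunction.vonMangoldt n : ℝ) : ℂ) * avg δ step (u - Real.log n) := by
    funext u
    exact avg_sum step_nice _ _ _ u
  have e2 : op δ (α, -α) (avg δ (PN N)) = fun u => ∑ n ∈ Finset.Icc 1 N,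
      ((ArithmeticFunction.vonMangoldt n : ℝ) : ℂ) * op δ (α, -α) (avg δ step) (u - Real.log n) := by
    rw [e1]
    funext u
    exact op_sum _ n1 _ _ _ u
  have e3 : ops δ l (op δ (α, -α) (avg δ (PN N))) = fun u => ∑ n ∈ Finset.Icc 1 N,
      ((ArithmeticFunction.vonMangoldt n : ℝ) : ℂ) *
        ops δ l (op δ (α, -α) (avg δ step)) (u - Real.log n) := by
    rw [e2]
    exact ops_sum hδ l n2 _ _ _
  have e4 : avg δ (ops δ l (op δ (α, -α) (avg δ (PN N)))) = fun u => ∑ n ∈ Finset.Icc 1 N,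
      ((ArithmeticFunction.vonMangoldt n : ℝ) : ℂ) *
        avg δ (ops δ l (op δ (α, -α) (avg δ step))) (u - Real.log n) := by
    rw [e3]
    funext u
    exact avg_sum n3 _ _ _ u
  have e5 : avg δ (avg δ (ops δ l (op δ (α, -α) (avg δ (PN N))))) U = ∑ n ∈ Finset.Icc 1 N,
      ((ArithmeticFunction.vonMangoldt n : ℝ) : ℂ) *
        avg δ (avg δ (ops δ l (op δ (α, -α) (avg δ step)))) (U - Real.log n) := by
    rw [e4]
    exact avg_sum n4 _ _ _ U
  rw [← e5]
  -- the bound of the first average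
  have b1 : ∀ u ∈ Icc U (U + (l.length + 3) * δ), ‖avg δ (fun v => ((ff v : ℝ) : ℂ)) u‖ ≤ S := by
    intro u hu
    unfold avg
    rw [norm_mul, norm_div, norm_one, Complex.norm_real, Real.norm_of_nonneg hδ.le]
    have h1 : ‖∫ v in (0:ℝ)..δ, ((ff (u + v) : ℝ) : ℂ)‖ ≤ δ * S := by
      rw [intervalIntegral.integral_comp_add_left (fun v => ((ff v : ℝ) : ℂ)) u, add_zero]
      refine (intervalIntegral.norm_integral_le_integral_norm (by linarith)).trans ?_
      simp only [Complex.norm_real, Real.norm_eq_abs]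
      exact hS u hu
    calc 1 / δ * ‖∫ v in (0:ℝ)..δ, ((ff (u + v) : ℝ) : ℂ)‖ ≤ 1 / δ * (δ * S) := by gcongr
      _ = S := by field_simp
  have b2 : ∀ u ∈ Icc U (U + (l.length + 2) * δ), ‖op δ (α, -α) (avg δ (PN N)) u‖ ≤ wt δ (α, -α) * S := by
    intro u hu
    rw [op_PN hδ hN (by linarith [hu.2]) α]
    refine op_sup hδ (α, -α) (a := U) (b := U + (l.length + 2) * δ) (fun v hv => b1 v ?_) u hu
    exact ⟨hv.1, by linarith [hv.2]⟩
  have b3 : ∀ u ∈ Icc U (U + 2 * δ), ‖ops δ l (op δ (α, -α) (avg δ (PN N))) u‖ ≤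
      (l.map (wt δ)).prod * (wt δ (α, -α) * S) := by
    refine ops_sup hδ l (U + 2 * δ) fun u hu => b2 u ⟨hu.1, by linarith [hu.2]⟩
  have b4 := avg_sup hδ (a := U) (b := U + δ) (fun u hu => b3 u ⟨hu.1, by linarith [hu.2]⟩)
  exact avg_sup hδ (a := U) (b := U) b4 U ⟨le_rfl, le_rfl⟩

end

end Pool.Agent.N799.LW
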