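import Pool.Agent.N799.LW.Key2
import Pool.Agent.Y24.F2

/-!
# The number of killed zeros
-/

set_option autoImplicit false

open MeasureTheory Filter Topology Set

namespace Pool.Agent.N799.LW

open Pool.Agent.H295R2 (Zs Zs_eq Zs_differentiable Zs_ne_zero_of_one_le Zs_eq_Zt Hf Hf_eq Zt)

noncomputable section

theorem Zs_real_ne {σ : ℝ} (hσ : 0 < σ) : Zs (σ : ℂ) ≠ 0 := by
  rcases le_or_gt 1 σ with h1 | h1
  · exact Zs_ne_zero_of_one_le (by simpa using h1)
  · rw [Zs_eq_Zt (by simpa using hσ)]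
    have hH : ∃ r : ℝ, 0 ≤ r ∧ Hf (σ : ℂ) = (r : ℂ) := by
      refine ⟨∫ t in Set.Ioi (1 : ℝ), Int.fract t * t ^ (-(σ + 1)), ?_, ?_⟩
      · refine setIntegral_nonneg measurableSet_Ioi fun t ht => ?_
        have ht : (1 : ℝ) < t := ht
        exact mul_nonneg (Int.fract_nonneg t) (by positivity)
      · rw [Hf_eq, ← integral_complex_ofReal]
        refine setIntegral_congr_fun measurableSet_Ioi fun t ht => ?_
        have ht : (1 : ℝ) < t := ht
        push_cast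
        rw [Complex.ofReal_cpow (by linarith)]
        push_cast
        rfl
    obtain ⟨r, hr, hrH⟩ := hH
    unfold Zt
    rw [hrH]
    intro h
    have h2 := congrArg Complex.re h
    have h3 : ((σ : ℂ) - σ * (σ - 1) * (r : ℂ)).re = σ - σ * (σ - 1) * r := by
      rw [show ((σ : ℂ) - σ * (σ - 1) * (r : ℂ)) = ((σ - σ * (σ - 1) * r : ℝ) : ℂ) by push_cast; ring]
      exact Complex.ofReal_re _
    rw [h3] at h2
    simp only [Complex.zero_re] at h2
    have : 0 ≤ σ * (1 - σ) * r := mul_nonneg (mul_nonneg hσ.le (by linarith)) hr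
    nlinarith

theorem order_ge {ρ : ℂ} (h0 : riemannZeta ρ = 0) : 1 ≤ analyticOrderNatAt riemannZeta ρ := by
  have h1 : ρ ≠ 1 := by
    rintro rfl
    exact riemannZeta_ne_zero_of_one_le_re (by simp) h0
  have han : AnalyticAt ℂ riemannZeta ρ := by
    apply DifferentiableOn.analyticAt (s := {s : ℂ | s ≠ 1}) _ (isOpen_ne.mem_nhds h1)
    intro z hz
    exact (differentiableAt_riemannZeta hz).differentiableWithinAt
  have h2 : analyticOrderAt riemannZeta ρ ≠ 0 := by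
    rw [Ne, analyticOrderAt_eq_zero]
    push Not
    exact ⟨han, h0⟩
  have h3 : analyticOrderAt riemannZeta ρ ≠ ⊤ := by
    rw [Ne, analyticOrderAt_eq_top]
    intro h
    apply Zs_not_ev ρ
    filter_upwards [h, isOpen_ne.mem_nhds h1] with z hz hz1
    exact (Zs_zero_iff hz1).2 hz
  unfold analyticOrderNatAt
  rw [Nat.one_le_iff_ne_zero, Ne, ENat.toNat_eq_zero]
  push Not
  exact ⟨h2, h3⟩

theorem ncard_le {θ c : ℝ} (hθ : 1 / 2 ≤ θ) (hθ1 : θ ≤ 1) (hc : c < 4 / 3) : ∃ C : ℝ, 1 ≤ C ∧ ∀ T : ℝ, 2 ≤ T →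
    ((RZ T ∩ {ρ | θ < ρ.re}).ncard : ℝ) ≤ C * T ^ (1 - c * (θ - 1 / 2)) * Real.log T := by
  obtain ⟨C, hC, h⟩ := Pool.Agent.Y24.density hc
  refine ⟨2 * C + 1, by linarith, fun T hT => ?_⟩
  obtain ⟨hfin, hsum⟩ := h θ T hθ hθ1 hT
  set A := Pool.Agent.Y24.ZZ θ T with hA
  have hsub : RZ T ∩ {ρ | θ < ρ.re} ⊆ A ∪ (starRingEnd ℂ) '' A := by
    rintro ρ ⟨h1, h2⟩
    have h2' : θ < ρ.re := h2
    obtain ⟨k1, k2, k3, k4, k5⟩ := RZ_mem h1
    have him : ρ.im ≠ 0 := by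
      intro h0
      have e : ρ = ((ρ.re : ℝ) : ℂ) := Complex.ext (by simp) (by simp [h0])
      have h3 := h1.2
      rw [e] at h3
      exact Zs_real_ne (by linarith) h3
    have k5' := abs_lt.1 k5
    rcases lt_or_gt_of_ne him with h4 | h4
    · right
      refine ⟨(starRingEnd ℂ) ρ, ⟨?_, ?_, ?_, ?_⟩, Complex.conj_conj ρ⟩
      · rw [riemannZeta_conj, k1, map_zero]
      · rw [Complex.conj_re]; exact h2'.le
      · rw [Complex.conj_im]; linarith
      · rw [Complex.conj_im]; linarith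
    · left
      exact ⟨k1, h2'.le, h4, k5'.2.le⟩
  have h3 : (RZ T ∩ {ρ | θ < ρ.re}).ncard ≤ 2 * A.ncard := by
    refine (Set.ncard_le_ncard hsub (hfin.union (hfin.image _))).trans ?_
    refine (Set.ncard_union_le _ _).trans ?_
    have := Set.ncard_image_le (f := (starRingEnd ℂ)) hfin
    omega
  have h4 : (A.ncard : ℝ) ≤ ∑ᶠ ρ ∈ A, (analyticOrderNatAt riemannZeta ρ : ℝ) := by
    rw [finsum_mem_eq_finite_toFinset_sum _ hfin, Set.ncard_eq_toFinset_card _ hfin]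
    rw [Finset.cast_card]
    apply Finset.sum_le_sum
    intro ρ hρ
    rw [Set.Finite.mem_toFinset] at hρ
    exact_mod_cast order_ge hρ.1
  have h5 : ((RZ T ∩ {ρ | θ < ρ.re}).ncard : ℝ) ≤ 2 * A.ncard := by exact_mod_cast h3
  have h6 : 0 ≤ T ^ (1 - c * (θ - 1 / 2)) * Real.log T :=
    mul_nonneg (by positivity) (Real.log_nonneg (by linarith))
  calc ((RZ T ∩ {ρ | θ < ρ.re}).ncard : ℝ) ≤ 2 * (C * T ^ (1 - c * (θ - 1 / 2)) * Real.log T) := by linarith
    _ ≤ (2 * C + 1) * T ^ (1 - c * (θ - 1 / 2)) * Real.log T := by nlinarith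

end

end Pool.Agent.N799.LW
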