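import Pool.Agent.N799.LW.Rect

/-!
# The key inequality
-/

set_option autoImplicit false

open MeasureTheory Filter Topology Set

namespace Pool.Agent.N799.LW

open Pool.Agent.H295R2 (Zs Zs_eq Zs_differentiable avg step)
open H370 (mult)

noncomputable section

theorem PP_le {Z : Finset ℂ} {ρ₀ s : ℂ} {A d : ℝ} (hd : 0 < d)
    (h : ∀ ρ ∈ Z, ‖s - ρ‖ ≤ A ∧ d ≤ ‖ρ₀ - ρ‖) : ‖PP Z ρ₀ s‖ ≤ (A / d) ^ Z.card := by
  unfold PP
  rw [norm_prod, ← Finset.prod_const]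
  apply Finset.prod_le_prod
  · intro ρ _
    positivity
  · intro ρ hρ
    obtain ⟨h1, h2⟩ := h ρ hρ
    have hA : 0 ≤ A := (norm_nonneg _).trans h1
    rw [norm_div]
    gcongr

/-- the multiplier in the strip, at bounded height -/
theorem EE_inner {Z : Finset ℂ} {ρ₀ s : ℂ} {T d δ U : ℝ} {M : ℕ} (hd : 0 < d) (hT : 3 ≤ T) (hδ : 0 < δ)
    (hZ : ∀ ρ ∈ Z, -1 / 2 ≤ ρ.re ∧ ρ.re ≤ 3 / 2 ∧ |ρ.im| ≤ T ∧ d ≤ ‖ρ₀ - ρ‖)
    (h1 : -1 / 2 ≤ s.re) (h2 : s.re ≤ 3 / 2) (h3 : |s.im| ≤ T) (hM : M * δ ≤ 1 / 4) :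
    ‖EE Z ρ₀ δ U M s‖ ≤ (‖1 / (ρ₀ * (ρ₀ - 1))‖ * (2 * T) * (3 * T / d) ^ Z.card) * (5 * Real.exp (s.re * U)) := by
  have e1 : ‖s - 1‖ ≤ 2 * T := by
    have := Complex.norm_le_abs_re_add_abs_im (s - 1)
    simp only [Complex.sub_re, Complex.one_re, Complex.sub_im, Complex.one_im, sub_zero] at this
    have h4 : |s.re - 1| ≤ 3 / 2 := by rw [abs_le]; constructor <;> linarith
    linarith
  have e2 : ‖PP Z ρ₀ s‖ ≤ (3 * T / d) ^ Z.card := by
    apply PP_le hd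
    intro ρ hρ
    obtain ⟨k1, k2, k3, k4⟩ := hZ ρ hρ
    refine ⟨?_, k4⟩
    have := Complex.norm_le_abs_re_add_abs_im (s - ρ)
    simp only [Complex.sub_re, Complex.sub_im] at this
    have h4 : |s.re - ρ.re| ≤ 2 := by rw [abs_le]; constructor <;> linarith
    have h5 : |s.im - ρ.im| ≤ 2 * T := (abs_sub _ _).trans (by linarith)
    linarith
  have e3 : ‖ph (s * δ) ^ M‖ ≤ 5 := by
    rw [norm_pow]
    calc ‖ph (s * δ)‖ ^ M ≤ Real.exp (3 / 2 * δ) ^ M := pow_le_pow_left₀ (norm_nonneg _) (ph_le hδ h2) M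
      _ = Real.exp (M * (3 / 2 * δ)) := by rw [← Real.exp_nat_mul]
      _ ≤ Real.exp 1 := Real.exp_le_exp.2 (by nlinarith)
      _ ≤ 5 := by linarith [Real.exp_one_lt_d9]
  have e4 : ‖Complex.exp (s * U)‖ = Real.exp (s.re * U) := by
    rw [Complex.norm_exp]; simp
  unfold EE
  rw [norm_mul, norm_mul, norm_mul, norm_mul, e4]
  calc ‖1 / (ρ₀ * (ρ₀ - 1))‖ * ‖s - 1‖ * ‖PP Z ρ₀ s‖ * ‖ph (s * δ) ^ M‖ * Real.exp (s.re * U)
      ≤ ‖1 / (ρ₀ * (ρ₀ - 1))‖ * (2 * T) * (3 * T / d) ^ Z.card * 5 * Real.exp (s.re * U) := by gcongr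
    _ = _ := by ring

/-- the multiplier at large height -/
theorem EE_outer {Z : Finset ℂ} {ρ₀ s : ℂ} {T d δ U : ℝ} {M : ℕ} (hd : 0 < d) (hT : 3 ≤ T) (hδ : 0 < δ)
    (hZ : ∀ ρ ∈ Z, -1 / 2 ≤ ρ.re ∧ ρ.re ≤ 3 / 2 ∧ |ρ.im| ≤ T ∧ d ≤ ‖ρ₀ - ρ‖)
    (h1 : -1 / 2 ≤ s.re) (h2 : s.re ≤ 3 / 2) (h3 : T ≤ |s.im|) (hδ1 : δ ≤ 1 / 4) (hTδ : 30 ≤ T * δ)
    (hMN : Z.card + 3 ≤ M) (hU : 0 ≤ U) (hexp : Real.exp (3 / 2 * U) ≤ 10 ^ M) :
    ‖EE Z ρ₀ δ U M s‖ ≤ (‖1 / (ρ₀ * (ρ₀ - 1))‖ * (2 * T) * (3 * T / d) ^ Z.card) * (T / |s.im|) ^ 2 := by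
  set y := |s.im| with hy
  have hy0 : 0 < y := by linarith
  have hT0 : 0 < T := by linarith
  have e1 : ‖s - 1‖ ≤ 2 * y := by
    have := Complex.norm_le_abs_re_add_abs_im (s - 1)
    simp only [Complex.sub_re, Complex.one_re, Complex.sub_im, Complex.one_im, sub_zero] at this
    have h4 : |s.re - 1| ≤ 3 / 2 := by rw [abs_le]; constructor <;> linarith
    linarith
  have e2 : ‖PP Z ρ₀ s‖ ≤ (3 * y / d) ^ Z.card := by
    apply PP_le hd
    intro ρ hρ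
    obtain ⟨k1, k2, k3, k4⟩ := hZ ρ hρ
    refine ⟨?_, k4⟩
    have := Complex.norm_le_abs_re_add_abs_im (s - ρ)
    simp only [Complex.sub_re, Complex.sub_im] at this
    have h4 : |s.re - ρ.re| ≤ 2 := by rw [abs_le]; constructor <;> linarith
    have h5 : |s.im - ρ.im| ≤ 2 * y := (abs_sub _ _).trans (by linarith)
    linarith
  have hs0 : s ≠ 0 := by
    rintro rfl
    simp at hy
    linarith
  have e3 : ‖ph (s * δ)‖ ≤ 1 / 10 * (T / y) := by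
    have hδ0 : (δ : ℂ) ≠ 0 := by exact_mod_cast hδ.ne'
    refine (ph_far (mul_ne_zero hs0 hδ0)).trans ?_
    have h4 : (s * (δ : ℂ)).re = s.re * δ := by simp
    have h5 : Real.exp (s.re * δ) ≤ 2 := by
      calc Real.exp (s.re * δ) ≤ Real.exp (1 / 2) := Real.exp_le_exp.2 (by nlinarith)
        _ ≤ 2 := by
          have := Real.exp_one_lt_d9
          have h6 : Real.exp (1 / 2) * Real.exp (1 / 2) = Real.exp 1 := by rw [← Real.exp_add]; norm_num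
          nlinarith [Real.exp_pos (1 / 2)]
    rw [h4, norm_mul, Complex.norm_real, Real.norm_of_nonneg hδ.le]
    have h6 : y ≤ ‖s‖ := Complex.abs_im_le_norm s
    calc (Real.exp (s.re * δ) + 1) / (‖s‖ * δ) ≤ 3 / (y * δ) := by
          gcongr
          linarith
      _ ≤ 1 / 10 * (T / y) := by
          rw [div_le_iff₀ (by positivity)]
          have : 1 / 10 * (T / y) * (y * δ) = T * δ / 10 := by field_simp
          rw [this]
          linarith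
  have e4 : ‖Complex.exp (s * U)‖ ≤ 10 ^ M := by
    rw [Complex.norm_exp]
    refine le_trans (Real.exp_le_exp.2 ?_) hexp
    simp
    nlinarith
  obtain ⟨j, hj⟩ := Nat.exists_eq_add_of_le hMN
  have hTy : T / y ≤ 1 := by rw [div_le_one hy0]; exact h3
  have hTy0 : 0 ≤ T / y := by positivity
  unfold EE
  rw [norm_mul, norm_mul, norm_mul, norm_mul, norm_pow]
  calc ‖1 / (ρ₀ * (ρ₀ - 1))‖ * ‖s - 1‖ * ‖PP Z ρ₀ s‖ * ‖ph (s * δ)‖ ^ M * ‖Complex.exp (s * U)‖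
      ≤ ‖1 / (ρ₀ * (ρ₀ - 1))‖ * (2 * y) * (3 * y / d) ^ Z.card * (1 / 10 * (T / y)) ^ M * 10 ^ M := by
        gcongr
    _ = (‖1 / (ρ₀ * (ρ₀ - 1))‖ * (2 * T) * (3 * T / d) ^ Z.card) * ((T / y) ^ 2 * (T / y) ^ j) := by
        have a1 : (1 / 10 * (T / y)) ^ M * 10 ^ M = (T / y) ^ M := by
          rw [← mul_pow]; congr 1; ring
        have a2 : (T / y) ^ M = (T / y) * (T / y) ^ Z.card * ((T / y) ^ 2 * (T / y) ^ j) := by
          rw [hj]; ring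
        have a3 : (3 * y / d) ^ Z.card * (T / y) ^ Z.card = (3 * T / d) ^ Z.card := by
          rw [← mul_pow]; congr 1; field_simp
        have a4 : 2 * y * (T / y) = 2 * T := by field_simp
        calc ‖1 / (ρ₀ * (ρ₀ - 1))‖ * (2 * y) * (3 * y / d) ^ Z.card * (1 / 10 * (T / y)) ^ M * 10 ^ M
            = ‖1 / (ρ₀ * (ρ₀ - 1))‖ * (2 * y) * (3 * y / d) ^ Z.card * ((1 / 10 * (T / y)) ^ M * 10 ^ M) := by ring
          _ = ‖1 / (ρ₀ * (ρ₀ - 1))‖ * (2 * y * (T / y)) * ((3 * y / d) ^ Z.card * (T / y) ^ Z.card) *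
                ((T / y) ^ 2 * (T / y) ^ j) := by rw [a1, a2]; ring
          _ = _ := by rw [a3, a4]
    _ ≤ (‖1 / (ρ₀ * (ρ₀ - 1))‖ * (2 * T) * (3 * T / d) ^ Z.card) * ((T / y) ^ 2 * 1) := by
        gcongr
        exact pow_le_one₀ hTy0 hTy
    _ = _ := by rw [mul_one]

/-- `∫_{|y| > T} (T/|y|)² dy = 2T` -/
theorem tail_bound {G : ℝ → ℂ} {T A : ℝ} (hT : 0 < T) (hG : Integrable G)
    (hb : ∀ y : ℝ, T ≤ |y| → ‖G y‖ ≤ A * (T / |y|) ^ 2) :
    ‖(∫ y : ℝ, G y) - ∫ y in (-T)..T, G y‖ ≤ A * (2 * T) := by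
  have hA : 0 ≤ A := by
    have h1 := hb T (le_abs_self T)
    rw [abs_of_pos hT, div_self hT.ne', one_pow, mul_one] at h1
    exact (norm_nonneg _).trans h1
  have e1 : (∫ y : ℝ, G y) = (∫ y in Iic (-T), G y) + ((∫ y in (-T)..T, G y) + ∫ y in Ioi T, G y) := by
    rw [intervalIntegral.integral_of_le (by linarith), ← setIntegral_union (Ioc_disjoint_Ioi_same) measurableSet_Ioi
      hG.integrableOn hG.integrableOn, Ioc_union_Ioi_eq_Ioi (by linarith), ← setIntegral_union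
      (Iic_disjoint_Ioi le_rfl) measurableSet_Ioi hG.integrableOn hG.integrableOn, Iic_union_Ioi, setIntegral_univ]
  have hint : IntegrableOn (fun y : ℝ => A * (T ^ 2 * y ^ (-2 : ℝ))) (Ioi T) :=
    ((integrableOn_Ioi_rpow_of_lt (by norm_num) hT).const_mul _).const_mul _
  have hval : ∫ y in Ioi T, A * (T ^ 2 * y ^ (-2 : ℝ)) = A * T := by
    rw [integral_const_mul, integral_const_mul, integral_Ioi_rpow_of_lt (by norm_num) hT]
    have : T ^ (-2 + 1 : ℝ) = T⁻¹ := by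
      rw [show (-2 + 1 : ℝ) = -1 by norm_num, Real.rpow_neg_one]
    rw [this]
    field_simp
    norm_num
  have hpw : ∀ y : ℝ, T < y → A * (T / |y|) ^ 2 = A * (T ^ 2 * y ^ (-2 : ℝ)) := by
    intro y hy
    have hy0 : 0 < y := by linarith
    rw [abs_of_pos hy0, div_pow, Real.rpow_neg hy0.le]
    norm_num
    left
    rfl
  have h1 : ‖∫ y in Ioi T, G y‖ ≤ A * T := by
    rw [← hval]
    apply norm_integral_le_of_norm_le hint
    filter_upwards [ae_restrict_mem measurableSet_Ioi] with y hy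
    rw [← hpw y hy]
    exact hb y (le_trans (le_of_lt hy) (le_abs_self y))
  have h2 : ‖∫ y in Iic (-T), G y‖ ≤ A * T := by
    have e2 : ∫ y in Iic (-T), G y = ∫ y in Ioi T, G (-y) := by
      rw [← integral_comp_neg_Ioi]
    rw [e2, ← hval]
    apply norm_integral_le_of_norm_le hint
    filter_upwards [ae_restrict_mem measurableSet_Ioi] with y hy
    rw [← hpw y hy]
    have := hb (-y) (by rw [abs_neg]; exact le_trans (le_of_lt hy) (le_abs_self y))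
    rwa [abs_neg] at this
  have e3 : (∫ y : ℝ, G y) - ∫ y in (-T)..T, G y = (∫ y in Iic (-T), G y) + ∫ y in Ioi T, G y := by
    rw [e1]; ring
  rw [e3]
  refine (norm_add_le _ _).trans ?_
  linarith

end

end Pool.Agent.N799.LW
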