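import Pool.Agent.N799.LW.Key

/-!
# The key inequality, continued
-/

set_option autoImplicit false

open MeasureTheory Filter Topology Set

namespace Pool.Agent.N799.LW

open Pool.Agent.H295R2 (Zs Zs_eq Zs_differentiable avg step)
open H370 (mult)

noncomputable section

theorem Zs_not_ev (z₀ : ℂ) : ¬ ∀ᶠ z in 𝓝 z₀, Zs z = 0 := by
  intro h
  have han : AnalyticOnNhd ℂ Zs univ := fun z _ => Zs_differentiable.analyticAt z
  exact Zs_one_ne (han.eqOn_zero_of_preconnected_of_eventuallyEq_zero isPreconnected_univ (mem_univ z₀) h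
    (mem_univ 1))

theorem isol {ρ₀ : ℂ} : ∃ d : ℝ, 0 < d ∧ ∀ ρ : ℂ, Zs ρ = 0 → ρ ≠ ρ₀ → d ≤ ‖ρ₀ - ρ‖ := by
  rcases (Zs_differentiable.analyticAt ρ₀).eventually_eq_zero_or_eventually_ne_zero with h | h
  · exact absurd h (Zs_not_ev ρ₀)
  · rw [eventually_nhdsWithin_iff, Metric.eventually_nhds_iff] at h
    obtain ⟨ε, hε, h⟩ := h
    refine ⟨ε, hε, fun ρ h0 hne => ?_⟩
    by_contra hcon
    push Not at hcon
    refine h (y := ρ) ?_ hne h0
    rw [dist_eq_norm, norm_sub_rev]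
    exact hcon

theorem mult_ge {ρ₀ : ℂ} (h0 : Zs ρ₀ = 0) : 1 ≤ mult Zs ρ₀ := by
  have han := Zs_differentiable.analyticAt ρ₀
  have h1 : analyticOrderAt Zs ρ₀ ≠ 0 := by
    rw [Ne, analyticOrderAt_eq_zero]
    push Not
    exact ⟨han, h0⟩
  have h2 : analyticOrderAt Zs ρ₀ ≠ ⊤ := by
    rw [Ne, analyticOrderAt_eq_top]
    exact Zs_not_ev ρ₀
  unfold mult analyticOrderNatAt
  rw [Nat.one_le_iff_ne_zero, Ne, ENat.toNat_eq_zero]
  push Not
  exact ⟨h1, h2⟩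

theorem key {ρ₀ : ℂ} {θ : ℝ} (hz : riemannZeta ρ₀ = 0) (hθ : 0 ≤ θ) (hρ : θ < ρ₀.re) :
    ∃ C : ℝ, 1 ≤ C ∧ ∀ T1 : ℝ, C ≤ T1 → ∃ T ∈ Icc T1 (T1 + 1), (RZ T).Finite ∧
      ∀ (U δ : ℝ) (M : ℕ), 0 ≤ U → 0 < δ → C * (M * δ) ≤ 1 → 30 ≤ T1 * δ →
      (RZ T ∩ {ρ | θ < ρ.re}).ncard + 5 ≤ M → Real.exp (3 / 2 * U) ≤ 10 ^ M →
      Real.exp (ρ₀.re * U) ≤ C * T ^ 3 * (C * T) ^ ((RZ T ∩ {ρ | θ < ρ.re}).ncard) *
        ((∫ u in U..(U + M * δ), |ff u|) + Real.exp (θ * U)) := by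
  classical
  obtain ⟨d, hd, hiso⟩ := isol (ρ₀ := ρ₀)
  obtain ⟨C0, hC0, hrect⟩ := rect_main
  obtain ⟨C3, hC3, hld⟩ := zld_bound
  have hre1 : ρ₀.re < 1 := by
    by_contra hcon
    exact riemannZeta_ne_zero_of_one_le_re (not_lt.1 hcon) hz
  have hre0 : 0 < ρ₀.re := lt_of_le_of_lt hθ hρ
  have hρ0 : ρ₀ ≠ 0 := by rintro rfl; simp at hre0
  have hρ1 : ρ₀ ≠ 1 := by rintro rfl; simp at hre1
  have hρ1' : ρ₀ - 1 ≠ 0 := sub_ne_zero.2 hρ1
  have hZ0 : Zs ρ₀ = 0 := (Zs_zero_iff hρ1).2 hz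
  set c0 : ℝ := ‖1 / (ρ₀ * (ρ₀ - 1))‖ with hc0
  have hc00 : 0 ≤ c0 := norm_nonneg _
  set C : ℝ := 4 + |ρ₀.im| + 2 * ‖ρ₀‖ + 3 / d + 2 * ‖ρ₀‖ * (2 * c0) * (1 + 2 * C3 + 10 * C0) with hC
  have hn0 : 0 < ‖ρ₀‖ := norm_pos_iff.2 hρ0
  have him0 : 0 ≤ |ρ₀.im| := abs_nonneg _
  have hd3 : 0 < 3 / d := by positivity
  have hlast : 0 ≤ 2 * ‖ρ₀‖ * (2 * c0) * (1 + 2 * C3 + 10 * C0) := by positivity
  have hC4 : 4 ≤ C := by linarith
  refine ⟨C, by linarith, fun T1 hT1 => ?_⟩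
  obtain ⟨T, hT, hfin, hcount, hmain⟩ := hrect T1 (by linarith)
  have hT3 : 4 ≤ T := by linarith [hT.1]
  have hT0 : 0 < T := by linarith
  refine ⟨T, hT, hfin, fun U δ M hU hδ hMδ hTδ hcard hexp => ?_⟩
  set Z : Finset ℂ := hfin.toFinset.filter (fun ρ => θ < ρ.re ∧ ρ ≠ ρ₀) with hZ
  have hZcard : Z.card ≤ (RZ T ∩ {ρ | θ < ρ.re}).ncard := by
    rw [← Set.ncard_coe_finset]
    apply Set.ncard_le_ncard _ (hfin.inter_of_left _)
    intro ρ hρ'
    rw [Finset.mem_coe, hZ, Finset.mem_filter, Set.Finite.mem_toFinset] at hρ'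
    exact ⟨hρ'.1, hρ'.2.1⟩
  have hM1 : 1 ≤ M := by omega
  have hMδ0 : 0 ≤ M * δ := by positivity
  have hMδ4 : M * δ ≤ 1 / 4 := by nlinarith
  have hMδρ : M * δ * ‖ρ₀‖ ≤ 1 / 2 := by nlinarith
  have hδM : δ ≤ M * δ := by
    have : (1 : ℝ) ≤ M := by exact_mod_cast hM1
    nlinarith
  have hδ4 : δ ≤ 1 / 4 := by linarith
  have hTδ' : 30 ≤ T * δ := by nlinarith [hT.1]
  have hZp : ∀ ρ ∈ Z, -1 / 2 ≤ ρ.re ∧ ρ.re ≤ 3 / 2 ∧ |ρ.im| ≤ T ∧ d ≤ ‖ρ₀ - ρ‖ := by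
    intro ρ hρ'
    rw [hZ, Finset.mem_filter, Set.Finite.mem_toFinset] at hρ'
    obtain ⟨k1, k2, k3, k4, k5⟩ := RZ_mem hρ'.1
    exact ⟨k3.le, by linarith, k5.le, hiso ρ hρ'.1.2 hρ'.2.2⟩
  set W : ℝ := c0 * (2 * T) * (3 * T / d) ^ Z.card with hW
  have hW0 : 0 ≤ W := by positivity
  have hinner : ∀ s : ℂ, -1 / 2 ≤ s.re → s.re ≤ 3 / 2 → |s.im| ≤ T →
      ‖EE Z ρ₀ δ U M s‖ ≤ W * (5 * Real.exp (s.re * U)) := fun s h1 h2 h3 =>
    EE_inner hd (by linarith) hδ hZp h1 h2 h3 hMδ4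
  have houter : ∀ s : ℂ, -1 / 2 ≤ s.re → s.re ≤ 3 / 2 → T ≤ |s.im| →
      ‖EE Z ρ₀ δ U M s‖ ≤ W * (T / |s.im|) ^ 2 := fun s h1 h2 h3 =>
    EE_outer hd (by linarith) hδ hZp h1 h2 h3 hδ4 hTδ' (by omega) hU hexp
  -- the rectangle
  have hr := hmain (EE Z ρ₀ δ U M) (5 * W) (EE_diff _ _ _ _ _) (by unfold EE; simp)
    (fun x hx => by
      refine (houter ⟨x, T⟩ hx.1 hx.2 (le_abs_self T)).trans ?_
      simp only
      rw [abs_of_pos hT0, div_self hT0.ne', one_pow]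
      linarith)
    (fun x hx => by
      refine (houter ⟨x, -T⟩ hx.1 hx.2 (by simp only [abs_neg]; exact le_abs_self T)).trans ?_
      simp only
      rw [abs_neg, abs_of_pos hT0, div_self hT0.ne', one_pow]
      linarith)
    (fun y hy => by
      refine (hinner ⟨-1 / 2, y⟩ le_rfl (by norm_num) (abs_le.2 hy)).trans ?_
      have : Real.exp (-1 / 2 * U) ≤ 1 := Real.exp_le_one_iff.2 (by linarith)
      simp only
      nlinarith)
  -- the sum over zeros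
  have hsumfin : ∑ᶠ s ∈ RZ T, (mult Zs s : ℂ) * EE Z ρ₀ δ U M s =
      ∑ s ∈ hfin.toFinset, (mult Zs s : ℂ) * EE Z ρ₀ δ U M s :=
    finsum_mem_eq_finite_toFinset_sum _ hfin
  have hcount2 : ∑ s ∈ hfin.toFinset, (mult Zs s : ℝ) ≤ C0 * T ^ 2 := by
    have e : ∑ᶠ s ∈ RZ T, (mult Zs s : ℂ) = ((∑ s ∈ hfin.toFinset, (mult Zs s : ℝ) : ℝ) : ℂ) := by
      rw [finsum_mem_eq_finite_toFinset_sum _ hfin]
      push_cast
      rfl
    rw [e, Complex.norm_real] at hcount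
    exact (le_abs_self _).trans hcount
  have hρmem : ρ₀ ∈ hfin.toFinset := by
    rw [Set.Finite.mem_toFinset]
    refine ⟨⟨⟨by linarith, by linarith⟩, ?_⟩, hZ0⟩
    have h1 : |ρ₀.im| < T := by linarith [hT.1]
    exact abs_lt.1 h1
  have hsplit := Finset.add_sum_erase hfin.toFinset (fun s => (mult Zs s : ℂ) * EE Z ρ₀ δ U M s) hρmem
  have hrest : ‖∑ s ∈ hfin.toFinset.erase ρ₀, (mult Zs s : ℂ) * EE Z ρ₀ δ U M s‖ ≤
      C0 * T ^ 2 * (W * (5 * Real.exp (θ * U))) := by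
    refine (norm_sum_le _ _).trans ?_
    calc ∑ s ∈ hfin.toFinset.erase ρ₀, ‖(mult Zs s : ℂ) * EE Z ρ₀ δ U M s‖
        ≤ ∑ s ∈ hfin.toFinset.erase ρ₀, (mult Zs s : ℝ) * (W * (5 * Real.exp (θ * U))) := by
          apply Finset.sum_le_sum
          intro s hs
          rw [Finset.mem_erase, Set.Finite.mem_toFinset] at hs
          obtain ⟨k1, k2, k3, k4, k5⟩ := RZ_mem hs.2
          rw [norm_mul, Complex.norm_natCast]
          apply mul_le_mul_of_nonneg_left _ (Nat.cast_nonneg _)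
          rcases lt_or_ge θ s.re with hc | hc
          · have hsZ : s ∈ Z := by
              rw [hZ, Finset.mem_filter, Set.Finite.mem_toFinset]
              exact ⟨hs.2, hc, hs.1⟩
            have : PP Z ρ₀ s = 0 := by
              unfold PP
              apply Finset.prod_eq_zero hsZ
              rw [sub_self, zero_div]
            unfold EE
            rw [this]
            simp
            positivity
          · refine (hinner s k3.le (by linarith) k5.le).trans ?_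
            have : Real.exp (s.re * U) ≤ Real.exp (θ * U) := Real.exp_le_exp.2 (by nlinarith)
            gcongr
      _ ≤ ∑ s ∈ hfin.toFinset, (mult Zs s : ℝ) * (W * (5 * Real.exp (θ * U))) := by
          apply Finset.sum_le_sum_of_subset_of_nonneg (Finset.erase_subset _ _)
          intro s _ _
          positivity
      _ = (∑ s ∈ hfin.toFinset, (mult Zs s : ℝ)) * (W * (5 * Real.exp (θ * U))) := by rw [Finset.sum_mul]
      _ ≤ _ := by gcongr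
  -- the main term
  have hmainterm : Real.exp (ρ₀.re * U) / (2 * ‖ρ₀‖) ≤ ‖(mult Zs ρ₀ : ℂ) * EE Z ρ₀ δ U M ρ₀‖ := by
    have hPP : PP Z ρ₀ ρ₀ = 1 := by
      unfold PP
      apply Finset.prod_eq_one
      intro ρ hρ'
      rw [hZ, Finset.mem_filter] at hρ'
      exact div_self (sub_ne_zero.2 hρ'.2.2.symm)
    have hEE : EE Z ρ₀ δ U M ρ₀ = 1 / ρ₀ * ph (ρ₀ * δ) ^ M * Complex.exp (ρ₀ * U) := by
      unfold EE
      rw [hPP]
      field_simp
    have hnear : 1 / 2 ≤ ‖ph (ρ₀ * δ) ^ M‖ := by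
      rw [norm_pow]
      have h1 : ‖ρ₀ * (δ : ℂ)‖ = ‖ρ₀‖ * δ := by
        rw [norm_mul, Complex.norm_real, Real.norm_of_nonneg hδ.le]
      have h2 : ‖ρ₀‖ * δ ≤ 1 / 2 := by nlinarith
      have h3 := ph_near (z := ρ₀ * δ) (by rw [h1]; linarith)
      rw [h1] at h3
      have h4 := one_add_mul_le_pow (a := -(‖ρ₀‖ * δ)) (by linarith) M
      calc (1 : ℝ) / 2 ≤ 1 + M * -(‖ρ₀‖ * δ) := by nlinarith
        _ ≤ (1 + -(‖ρ₀‖ * δ)) ^ M := h4
        _ ≤ ‖ph (ρ₀ * δ)‖ ^ M := pow_le_pow_left₀ (by linarith) (by linarith) M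
    have hmu : (1 : ℝ) ≤ mult Zs ρ₀ := by exact_mod_cast mult_ge hZ0
    rw [hEE, norm_mul, norm_mul, norm_mul, norm_div, norm_one, Complex.norm_natCast, Complex.norm_exp]
    have h5 : (ρ₀ * (U : ℂ)).re = ρ₀.re * U := by simp
    rw [h5]
    calc Real.exp (ρ₀.re * U) / (2 * ‖ρ₀‖) = 1 * (1 / ‖ρ₀‖ * (1 / 2) * Real.exp (ρ₀.re * U)) := by
          field_simp
      _ ≤ _ := by gcongr
  -- the integral over the whole line
  obtain ⟨m, hm⟩ := Nat.exists_eq_add_of_le (show Z.card + 5 ≤ M by omega)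
  have hm' : Z.card + m + 5 = M := by omega
  set N : ℕ := ⌈Real.exp (U + M * δ)⌉₊ with hN
  have hN1 : 1 ≤ N := Nat.one_le_iff_ne_zero.2 (by
    rw [hN]
    exact (Nat.ceil_pos.2 (Real.exp_pos _)).ne')
  have hNlog : U + M * δ ≤ Real.log N := by
    have h1 : Real.exp (U + M * δ) ≤ N := Nat.le_ceil _
    have := Real.log_le_log (Real.exp_pos _) h1
    rwa [Real.log_exp] at this
  have hP := perron_H Z m hδ (by linarith) hρ0 hρ1' (U := U) (N := N) hN1 (by rw [hm']; exact hNlog)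
  rw [hm'] at hP
  set G : ℝ → ℂ := fun y => Fz (((3 / 2 : ℝ) : ℂ) + y * Complex.I) *
    EE Z ρ₀ δ U M (((3 / 2 : ℝ) : ℂ) + y * Complex.I) with hG
  have hre : ∀ y : ℝ, (((3 / 2 : ℝ) : ℂ) + y * Complex.I).re = 3 / 2 := by intro y; simp
  have him : ∀ y : ℝ, (((3 / 2 : ℝ) : ℂ) + y * Complex.I).im = y := by intro y; simp
  have hGb : ∀ y : ℝ, T ≤ |y| → ‖G y‖ ≤ (C3 * W) * (T / |y|) ^ 2 := by
    intro y hy
    rw [hG]
    simp only
    rw [norm_mul]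
    have h1 := hld (((3 / 2 : ℝ) : ℂ) + y * Complex.I) (hre y).ge
    have h2 := houter (((3 / 2 : ℝ) : ℂ) + y * Complex.I) (by rw [hre]; norm_num) (hre y).le
      (by rw [him]; exact hy)
    rw [him] at h2
    calc _ ≤ C3 * (W * (T / |y|) ^ 2) := by gcongr
      _ = _ := by ring
  have hGint : Integrable G := by
    have hFc : ∀ s : ℂ, s.re = 3 / 2 → ContinuousAt Fz s := by
      intro s hs
      have h1 : s ≠ 1 := by rintro rfl; norm_num at hs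
      have d1 : DifferentiableAt ℂ riemannZeta s := differentiableAt_riemannZeta h1
      have d2 : AnalyticAt ℂ riemannZeta s := by
        apply DifferentiableOn.analyticAt (s := {s : ℂ | s ≠ 1}) _ (isOpen_ne.mem_nhds h1)
        intro z hz
        exact (differentiableAt_riemannZeta hz).differentiableWithinAt
      unfold Fz
      exact (d2.deriv.continuousAt.div d1.continuousAt
        (riemannZeta_ne_zero_of_one_lt_re (by rw [hs]; norm_num))).neg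
    refine Pool.Agent.H295R2.vertical_integrable (H := fun s => Fz s * EE Z ρ₀ δ U M s) (a := 3 / 2)
      (B := (C3 * W) * (4 * T ^ 2) + (C3 * (W * (5 * Real.exp (3 / 2 * U)))) * (1 + T) ^ 2) ?_ ?_
    · intro s hs
      exact (hFc s hs).mul (EE_diff _ _ _ _ _).continuous.continuousAt
    · intro s hs
      rw [norm_mul]
      have h1 := hld s hs.ge
      have ha := abs_nonneg s.im
      have hrp : (1 + |s.im|) ^ (-2 : ℝ) ≤ (1 + |s.im|) ^ (-(3 / 2) : ℝ) :=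
        Real.rpow_le_rpow_of_exponent_le (by linarith) (by norm_num)
      have hrp2 : (1 + |s.im|) ^ (-2 : ℝ) = ((1 + |s.im|) ^ 2)⁻¹ := by
        rw [Real.rpow_neg (by positivity)]
        norm_num
      have hrp0 : 0 ≤ (1 + |s.im|) ^ (-(3 / 2) : ℝ) := by positivity
      rw [hrp2] at hrp
      rcases le_or_gt T |s.im| with hy | hy
      · have h2 := houter s (by rw [hs]; norm_num) hs.le hy
        have hy0 : 0 < |s.im| := by linarith
        have h3 : (T / |s.im|) ^ 2 ≤ 4 * T ^ 2 * ((1 + |s.im|) ^ 2)⁻¹ := by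
          rw [div_pow, div_le_iff₀ (by positivity), mul_assoc, ← div_eq_inv_mul]
          have : 1 / 4 ≤ |s.im| ^ 2 / (1 + |s.im|) ^ 2 := by
            rw [div_le_div_iff₀ (by norm_num) (by positivity)]
            nlinarith
          nlinarith [sq_nonneg T]
        calc ‖Fz s‖ * ‖EE Z ρ₀ δ U M s‖ ≤ C3 * (W * (4 * T ^ 2 * ((1 + |s.im|) ^ 2)⁻¹)) := by
              apply mul_le_mul h1 (h2.trans (by gcongr)) (norm_nonneg _) hC3.le
          _ ≤ C3 * (W * (4 * T ^ 2 * (1 + |s.im|) ^ (-(3 / 2) : ℝ))) := by gcongr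
          _ = (C3 * W) * (4 * T ^ 2) * (1 + |s.im|) ^ (-(3 / 2) : ℝ) := by ring
          _ ≤ _ := by
              apply mul_le_mul_of_nonneg_right _ hrp0
              have : 0 ≤ (C3 * (W * (5 * Real.exp (3 / 2 * U)))) * (1 + T) ^ 2 := by positivity
              linarith
      · have h2 := hinner s (by rw [hs]; norm_num) hs.le hy.le
        rw [hs] at h2
        have h3 : 1 ≤ (1 + T) ^ 2 * ((1 + |s.im|) ^ 2)⁻¹ := by
          rw [← div_eq_mul_inv, le_div_iff₀ (by positivity), one_mul]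
          exact pow_le_pow_left₀ (by linarith) (by linarith) 2
        calc ‖Fz s‖ * ‖EE Z ρ₀ δ U M s‖ ≤ C3 * (W * (5 * Real.exp (3 / 2 * U))) := by
              apply mul_le_mul h1 h2 (norm_nonneg _) hC3.le
          _ = C3 * (W * (5 * Real.exp (3 / 2 * U))) * 1 := by ring
          _ ≤ C3 * (W * (5 * Real.exp (3 / 2 * U))) * ((1 + T) ^ 2 * ((1 + |s.im|) ^ 2)⁻¹) := by gcongr
          _ ≤ C3 * (W * (5 * Real.exp (3 / 2 * U))) * ((1 + T) ^ 2 * (1 + |s.im|) ^ (-(3 / 2) : ℝ)) := by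
              gcongr
          _ = (C3 * (W * (5 * Real.exp (3 / 2 * U)))) * (1 + T) ^ 2 * (1 + |s.im|) ^ (-(3 / 2) : ℝ) := by ring
          _ ≤ _ := by
              apply mul_le_mul_of_nonneg_right _ hrp0
              have : 0 ≤ (C3 * W) * (4 * T ^ 2) := by positivity
              linarith
  have htail := tail_bound hT0 hGint hGb
  have hGseg : ∫ y in (-T)..T, G y = ∫ y in (-T)..T, Fz ⟨3 / 2, y⟩ * EE Z ρ₀ δ U M ⟨3 / 2, y⟩ := by
    apply intervalIntegral.integral_congr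
    intro y _
    simp only [hG]
    have : (((3 / 2 : ℝ) : ℂ) + y * Complex.I) = ⟨3 / 2, y⟩ := by
      rw [← Complex.mk_eq_add_mul_I]
    rw [this]
  rw [← hGseg] at hr
  -- the arithmetic side
  set J : ℝ := ∫ u in U..(U + M * δ), |ff u| with hJ
  have hffabs : ∀ a b : ℝ, IntervalIntegrable (fun u => |ff u|) volume a b := fun a b => (ff_int a b).abs
  have hHb := H_bound hδ (lst Z ρ₀ m) (1 / (ρ₀ - 1)) (U := U) (S := 1 / δ * J) hN1
    (by
      rw [lst_length]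
      have : ((Z.card + m + 1 : ℕ) : ℝ) + 4 = M := by rw [← hm']; push_cast; ring
      rw [this]
      exact hNlog)
    (by
      intro u hu
      rw [lst_length] at hu
      have e : δ * (1 / δ * J) = J := by field_simp
      rw [e, hJ]
      apply intervalIntegral.integral_mono_interval hu.1 (by linarith) _ _ (hffabs _ _)
      · have h1 := hu.2
        have : ((Z.card + m + 1 : ℕ) : ℝ) + 3 + 1 = M := by rw [← hm']; push_cast; ring
        rw [← this]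
        linarith
      · exact Eventually.of_forall fun u => abs_nonneg _)
  have hkk : kk Z ρ₀ m δ = ops δ (lst Z ρ₀ m) (op δ (1 / (ρ₀ - 1), -(1 / (ρ₀ - 1))) (avg δ step)) := rfl
  rw [← hkk, hP, lst_wt Z ρ₀ m hδ] at hHb
  have hJ0 : 0 ≤ J := intervalIntegral.integral_nonneg (by linarith) fun u _ => abs_nonneg _
  have hδinv : 1 / δ ≤ T / 30 := by
    rw [div_le_div_iff₀ hδ (by norm_num)]
    linarith
  have hδinv0 : 0 ≤ 1 / δ := by positivity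
  have h2δ : 2 / δ = 2 * (1 / δ) := by ring
  have hprod : ∏ ρ ∈ Z, ((2 / δ + ‖ρ‖) / ‖ρ₀ - ρ‖) ≤ (3 * T / d) ^ Z.card := by
    rw [← Finset.prod_const]
    apply Finset.prod_le_prod
    · intro ρ _
      positivity
    · intro ρ hρ'
      obtain ⟨k1, k2, k3, k4⟩ := hZp ρ hρ'
      have h5 : ‖ρ‖ ≤ 3 / 2 + T := by
        refine (Complex.norm_le_abs_re_add_abs_im ρ).trans (add_le_add ?_ k3)
        rw [abs_le]; constructor <;> linarith
      have h6 : 2 / δ + ‖ρ‖ ≤ 3 * T := by rw [h2δ]; linarith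
      gcongr
  have hH : 2 / (δ * ‖ρ₀‖) * (∏ ρ ∈ Z, ((2 / δ + ‖ρ‖) / ‖ρ₀ - ρ‖)) *
      (wt δ (1 / (ρ₀ - 1), -(1 / (ρ₀ - 1))) * (1 / δ * J)) ≤ W * T ^ 2 * J := by
    have h7 : wt δ (1 / (ρ₀ - 1), -(1 / (ρ₀ - 1))) = ‖1 / (ρ₀ - 1)‖ * (2 / δ + 1) := by
      unfold wt
      simp only [norm_neg]
      ring
    have h8 : c0 = 1 / ‖ρ₀‖ * ‖1 / (ρ₀ - 1)‖ := by
      rw [hc0, norm_div, norm_div, norm_mul, norm_one, div_mul_div_comm, one_mul]
    have hprod0 : 0 ≤ ∏ ρ ∈ Z, ((2 / δ + ‖ρ‖) / ‖ρ₀ - ρ‖) := Finset.prod_nonneg fun ρ _ => by positivity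
    rw [h7]
    calc 2 / (δ * ‖ρ₀‖) * (∏ ρ ∈ Z, ((2 / δ + ‖ρ‖) / ‖ρ₀ - ρ‖)) *
          (‖1 / (ρ₀ - 1)‖ * (2 / δ + 1) * (1 / δ * J))
        = c0 * (∏ ρ ∈ Z, ((2 / δ + ‖ρ‖) / ‖ρ₀ - ρ‖)) * ((2 * (1 / δ)) * (2 * (1 / δ) + 1) * (1 / δ)) * J := by
          rw [h8]; field_simp
      _ ≤ c0 * (3 * T / d) ^ Z.card * ((2 * (T / 30)) * (2 * (T / 30) + 1) * (T / 30)) * J := by gcongr
      _ ≤ c0 * (3 * T / d) ^ Z.card * (2 * T * T ^ 2) * J := by
          have h9 : (2 * (T / 30)) * (2 * (T / 30) + 1) * (T / 30) ≤ 2 * T * T ^ 2 := by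
            have h10 : T ^ 2 ≤ T ^ 3 := pow_le_pow_right₀ (by linarith) (by norm_num)
            have h11 : 0 ≤ T ^ 3 := by positivity
            have e : (2 * (T / 30)) * (2 * (T / 30) + 1) * (T / 30) = 4 / 27000 * T ^ 3 + 2 / 900 * T ^ 2 := by
              ring
            have e' : 2 * T * T ^ 2 = 2 * T ^ 3 := by ring
            rw [e, e']
            linarith
          exact mul_le_mul_of_nonneg_right (mul_le_mul_of_nonneg_left h9 (by positivity)) hJ0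
      _ = W * T ^ 2 * J := by rw [hW]; ring
  have hGn : ‖∫ y : ℝ, G y‖ = 2 * Real.pi * ‖((2 * Real.pi)⁻¹ : ℂ) * ∫ y : ℝ, G y‖ := by
    rw [norm_mul, norm_inv, norm_mul, Complex.norm_real, Complex.norm_ofNat,
      Real.norm_of_nonneg Real.pi_pos.le, ← mul_assoc, mul_inv_cancel₀ (by positivity), one_mul]
  set Sg : ℂ := ∑ᶠ s ∈ RZ T, (mult Zs s : ℂ) * EE Z ρ₀ δ U M s with hSg
  have hpi3 := Real.pi_gt_three
  have f1 : ‖(2 : ℂ) * Real.pi * Sg‖ ≤ ‖∫ y : ℝ, G y‖ + C3 * W * (2 * T) + C0 * T ^ 2 * (5 * W) := by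
    have e : (2 : ℂ) * Real.pi * Sg = ((∫ y in (-T)..T, G y) + 2 * Real.pi * Sg) +
        ((∫ y : ℝ, G y) - ∫ y in (-T)..T, G y) - ∫ y : ℝ, G y := by ring
    rw [e]
    refine (norm_sub_le _ _).trans ?_
    have := norm_add_le ((∫ y in (-T)..T, G y) + 2 * Real.pi * Sg) ((∫ y : ℝ, G y) - ∫ y in (-T)..T, G y)
    linarith
  have f2 : ‖(2 : ℂ) * Real.pi * Sg‖ = 2 * Real.pi * ‖Sg‖ := by
    rw [norm_mul, norm_mul, Complex.norm_real, Complex.norm_ofNat, Real.norm_of_nonneg Real.pi_pos.le]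
  have f3 : ‖Sg‖ ≤ W * T ^ 2 * J + (C3 * W * (2 * T) + C0 * T ^ 2 * (5 * W)) := by
    rw [f2, hGn] at f1
    have f4 : 2 * Real.pi * ‖((2 * Real.pi)⁻¹ : ℂ) * ∫ y : ℝ, G y‖ ≤ 2 * Real.pi * (W * T ^ 2 * J) := by
      gcongr
      exact hHb.trans hH
    have f5 : 0 ≤ C3 * W * (2 * T) + C0 * T ^ 2 * (5 * W) := by positivity
    have f6 : C3 * W * (2 * T) + C0 * T ^ 2 * (5 * W) ≤
        2 * Real.pi * (C3 * W * (2 * T) + C0 * T ^ 2 * (5 * W)) := by nlinarith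
    have f7 : 2 * Real.pi * ‖Sg‖ ≤
        2 * Real.pi * (W * T ^ 2 * J + (C3 * W * (2 * T) + C0 * T ^ 2 * (5 * W))) := by
      rw [mul_add]; linarith
    exact le_of_mul_le_mul_left f7 (by positivity)
  have f8 : ‖(mult Zs ρ₀ : ℂ) * EE Z ρ₀ δ U M ρ₀‖ ≤ ‖Sg‖ + C0 * T ^ 2 * (W * (5 * Real.exp (θ * U))) := by
    have e : (mult Zs ρ₀ : ℂ) * EE Z ρ₀ δ U M ρ₀ = Sg -
        ∑ s ∈ hfin.toFinset.erase ρ₀, (mult Zs s : ℂ) * EE Z ρ₀ δ U M s := by
      rw [hsumfin, ← hsplit]; ring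
    rw [e]
    exact (norm_sub_le _ _).trans (add_le_add le_rfl hrest)
  have hexp1 : 1 ≤ Real.exp (θ * U) := Real.one_le_exp (by positivity)
  set x := Real.exp (θ * U) with hx
  have hTT : T ≤ T ^ 2 := by nlinarith
  have f9 : Real.exp (ρ₀.re * U) / (2 * ‖ρ₀‖) ≤ W * T ^ 2 * ((1 + 2 * C3 + 10 * C0) * (J + x)) := by
    have g1 : C3 * W * (2 * T) ≤ W * T ^ 2 * (2 * C3 * x) := by
      calc C3 * W * (2 * T) ≤ C3 * W * (2 * T ^ 2) * 1 := by rw [mul_one]; gcongr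
        _ ≤ C3 * W * (2 * T ^ 2) * x := by gcongr
        _ = _ := by ring
    have g2 : C0 * T ^ 2 * (5 * W) ≤ W * T ^ 2 * (5 * C0 * x) := by
      calc C0 * T ^ 2 * (5 * W) = W * T ^ 2 * (5 * C0) * 1 := by ring
        _ ≤ W * T ^ 2 * (5 * C0) * x := by gcongr
        _ = _ := by ring
    have g3 : C0 * T ^ 2 * (W * (5 * x)) = W * T ^ 2 * (5 * C0 * x) := by ring
    have g4 : J + (2 * C3 * x + 5 * C0 * x + 5 * C0 * x) ≤ (1 + 2 * C3 + 10 * C0) * (J + x) := by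
      nlinarith [mul_nonneg hC3.le hJ0, mul_nonneg (by linarith : (0 : ℝ) ≤ C0) hJ0]
    calc Real.exp (ρ₀.re * U) / (2 * ‖ρ₀‖) ≤ ‖Sg‖ + C0 * T ^ 2 * (W * (5 * x)) := hmainterm.trans f8
      _ ≤ W * T ^ 2 * (J + (2 * C3 * x + 5 * C0 * x + 5 * C0 * x)) := by rw [g3]; linarith
      _ ≤ _ := by gcongr
  have f10 : Real.exp (ρ₀.re * U) ≤ (2 * ‖ρ₀‖) * (W * T ^ 2 * ((1 + 2 * C3 + 10 * C0) * (J + x))) := by
    rw [div_le_iff₀ (by positivity)] at f9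
    linarith
  have hCT : 1 ≤ C * T := by nlinarith
  have hdC : 3 * T / d ≤ C * T := by
    have : 3 / d ≤ C := by linarith
    calc 3 * T / d = 3 / d * T := by ring
      _ ≤ C * T := by gcongr
  have f11 : (3 * T / d) ^ Z.card ≤ (C * T) ^ ((RZ T ∩ {ρ | θ < ρ.re}).ncard) :=
    (pow_le_pow_left₀ (by positivity) hdC _).trans (pow_le_pow_right₀ hCT hZcard)
  have hxJ : 0 ≤ J + x := by linarith
  calc Real.exp (ρ₀.re * U) ≤ (2 * ‖ρ₀‖) * (W * T ^ 2 * ((1 + 2 * C3 + 10 * C0) * (J + x))) := f10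
    _ = (2 * ‖ρ₀‖ * (2 * c0) * (1 + 2 * C3 + 10 * C0)) * T ^ 3 * (3 * T / d) ^ Z.card * (J + x) := by
        rw [hW]; ring
    _ ≤ C * T ^ 3 * (C * T) ^ ((RZ T ∩ {ρ | θ < ρ.re}).ncard) * (J + x) := by
        have : 2 * ‖ρ₀‖ * (2 * c0) * (1 + 2 * C3 + 10 * C0) ≤ C := by linarith
        gcongr

end

end Pool.Agent.N799.LW
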