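import Pool.Agent.W190.Q306.A2

/-!
# Averaging operators with one prescribed zero
-/

set_option autoImplicit false

open MeasureTheory Filter Topology Set

namespace Pool.Agent.N799.LW

open Pool.Agent.H295R2 (Nice Lap avg phi step step_nice Lap_step)

noncomputable section

/-- the operator with multiplier `(p.1 s + p.2) phi(s)` -/
def op (δ : ℝ) (p : ℂ × ℂ) (g : ℝ → ℂ) (u : ℝ) : ℂ :=
  p.1 * ((g (u + δ) - g u) / δ) + p.2 * avg δ g u

/-- the size of the operator -/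
def wt (δ : ℝ) (p : ℂ × ℂ) : ℝ := 2 * ‖p.1‖ / δ + ‖p.2‖

theorem wt_nonneg {δ : ℝ} (hδ : 0 < δ) (p : ℂ × ℂ) : 0 ≤ wt δ p := by
  unfold wt
  positivity

theorem norm_op_le {δ : ℝ} (hδ : 0 < δ) (p : ℂ × ℂ) {g : ℝ → ℂ} {u S : ℝ}
    (h1 : ‖g u‖ ≤ S) (h2 : ‖g (u + δ)‖ ≤ S) (h3 : ‖avg δ g u‖ ≤ S) : ‖op δ p g u‖ ≤ wt δ p * S := by
  unfold op wt
  refine (norm_add_le _ _).trans ?_
  rw [norm_mul, norm_mul, norm_div, Complex.norm_real, Real.norm_of_nonneg hδ.le]
  have h4 : ‖g (u + δ) - g u‖ ≤ 2 * S := (norm_sub_le _ _).trans (by linarith)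
  calc ‖p.1‖ * (‖g (u + δ) - g u‖ / δ) + ‖p.2‖ * ‖avg δ g u‖
      ≤ ‖p.1‖ * ((2 * S) / δ) + ‖p.2‖ * S := by gcongr
    _ = _ := by ring

theorem op_nice {δ : ℝ} (hδ : 0 < δ) (p : ℂ × ℂ) {k : ℝ → ℂ} {C u₀ : ℝ} (h : Nice k C 0 u₀) :
    Nice (op δ p k) (wt δ p * C) 0 (u₀ - δ) where
  meas := by
    unfold op
    have h1 : Measurable (fun u : ℝ => k (u + δ)) := h.meas.comp (measurable_id.add_const δ)
    have h2 : Measurable (avg δ k) := (h.avg_continuous δ).measurable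
    exact (((h1.sub h.meas).div_const _).const_mul _).add (h2.const_mul _)
  bound := by
    intro u
    have h1 : ∀ v, ‖k v‖ ≤ C := fun v => by simpa using h.bound v
    have h2 : ‖avg δ k u‖ ≤ C := by simpa using (h.avg hδ).bound u
    have := norm_op_le hδ p (h1 u) (h1 (u + δ)) h2
    simpa using this
  zero := by
    intro u hu
    unfold op
    rw [h.zero (u + δ) (by linarith), h.zero u (by linarith), (h.avg hδ).zero u hu]
    simp

theorem Lap_op {δ : ℝ} (hδ : 0 < δ) (p : ℂ × ℂ) {k : ℝ → ℂ} {C u₀ : ℝ} (h : Nice k C 0 u₀) {s : ℂ}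
    (hs : 0 < s.re) : Lap (op δ p k) s = (p.1 * s + p.2) * phi δ s * Lap k s := by
  have hs0 : s ≠ 0 := by rintro rfl; simp at hs
  have hδ0 : (δ : ℂ) ≠ 0 := by exact_mod_cast hδ.ne'
  have i1 := h.shift_integrable hs δ
  have i2 := h.integrable hs
  have i3 := (h.avg hδ).integrable hs
  have e : ∀ u : ℝ, op δ p k u * Complex.exp (-(s * u)) =
      (p.1 / δ) * (k (u + δ) * Complex.exp (-(s * u))) - (p.1 / δ) * (k u * Complex.exp (-(s * u))) +
      p.2 * (avg δ k u * Complex.exp (-(s * u))) := by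
    intro u
    unfold op
    ring
  have e2 : Lap (op δ p k) s = (p.1 / δ) * (Complex.exp (s * δ) * Lap k s) - (p.1 / δ) * Lap k s +
      p.2 * Lap (avg δ k) s := by
    conv_lhs => unfold Lap
    rw [integral_congr_ae (Eventually.of_forall e), integral_add _ (i3.const_mul _),
      integral_sub (i1.const_mul _) (i2.const_mul _), integral_const_mul, integral_const_mul,
      integral_const_mul, h.Lap_shift]
    · rfl
    · exact (i1.const_mul _).sub (i2.const_mul _)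
  rw [e2, h.Lap_avg hδ hs]
  unfold phi
  field_simp

/-- composition of a list of operators -/
def ops (δ : ℝ) (l : List (ℂ × ℂ)) (g : ℝ → ℂ) : ℝ → ℂ := l.foldr (op δ) g

theorem ops_nil (δ : ℝ) (g : ℝ → ℂ) : ops δ [] g = g := rfl

theorem ops_cons (δ : ℝ) (p : ℂ × ℂ) (l : List (ℂ × ℂ)) (g : ℝ → ℂ) :
    ops δ (p :: l) g = op δ p (ops δ l g) := rfl

theorem ops_nice {δ : ℝ} (hδ : 0 < δ) (l : List (ℂ × ℂ)) {k : ℝ → ℂ} {C u₀ : ℝ} (h : Nice k C 0 u₀) :
    Nice (ops δ l k) ((l.map (wt δ)).prod * C) 0 (u₀ - l.length * δ) := by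
  induction l with
  | nil => simpa [ops] using h
  | cons p l ih =>
    rw [ops_cons]
    have h1 := op_nice hδ p ih
    have e1 : wt δ p * ((l.map (wt δ)).prod * C) = ((p :: l).map (wt δ)).prod * C := by
      rw [List.map_cons, List.prod_cons]; ring
    have e2 : u₀ - l.length * δ - δ = u₀ - (p :: l).length * δ := by
      rw [List.length_cons]; push_cast; ring
    rw [e1, e2] at h1
    exact h1

theorem Lap_ops {δ : ℝ} (hδ : 0 < δ) (l : List (ℂ × ℂ)) {k : ℝ → ℂ} {C u₀ : ℝ} (h : Nice k C 0 u₀) {s : ℂ}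
    (hs : 0 < s.re) : Lap (ops δ l k) s = (l.map fun p => p.1 * s + p.2).prod * phi δ s ^ l.length * Lap k s := by
  induction l with
  | nil => simp [ops]
  | cons p l ih =>
    rw [ops_cons, Lap_op hδ p (ops_nice hδ l h) hs, ih, List.map_cons, List.prod_cons, List.length_cons,
      pow_succ]
    ring

/-! ### sums of translates -/

theorem avg_sum {δ : ℝ} {k : ℝ → ℂ} {C u₀ : ℝ} (h : Nice k C 0 u₀) (F : Finset ℕ)
    (c : ℕ → ℂ) (x : ℕ → ℝ) (u : ℝ) :
    avg δ (fun u => ∑ n ∈ F, c n * k (u - x n)) u = ∑ n ∈ F, c n * avg δ k (u - x n) := by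
  unfold avg
  rw [intervalIntegral.integral_finsetSum]
  · rw [Finset.mul_sum]
    refine Finset.sum_congr rfl fun n _ => ?_
    rw [intervalIntegral.integral_const_mul]
    have e : ∀ v : ℝ, u + v - x n = u - x n + v := fun v => by ring
    simp only [e]
    ring
  · intro n _
    apply IntervalIntegrable.const_mul
    have h1 := h.intervalIntegrable (u - x n) (u - x n + δ)
    have h2 := h1.comp_add_left (u - x n)
    have e : ∀ v : ℝ, u - x n + v = u + v - x n := fun v => by ring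
    simp only [e] at h2
    simpa using h2

theorem op_sum {δ : ℝ} (p : ℂ × ℂ) {k : ℝ → ℂ} {C u₀ : ℝ} (h : Nice k C 0 u₀) (F : Finset ℕ)
    (c : ℕ → ℂ) (x : ℕ → ℝ) (u : ℝ) :
    op δ p (fun u => ∑ n ∈ F, c n * k (u - x n)) u = ∑ n ∈ F, c n * op δ p k (u - x n) := by
  unfold op
  rw [avg_sum h, ← Finset.sum_sub_distrib, Finset.sum_div, Finset.mul_sum, Finset.mul_sum,
    ← Finset.sum_add_distrib]
  refine Finset.sum_congr rfl fun n _ => ?_
  have e : u + δ - x n = u - x n + δ := by ring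
  rw [e]
  ring

theorem ops_sum {δ : ℝ} (hδ : 0 < δ) (l : List (ℂ × ℂ)) {k : ℝ → ℂ} {C u₀ : ℝ} (h : Nice k C 0 u₀)
    (F : Finset ℕ) (c : ℕ → ℂ) (x : ℕ → ℝ) :
    ops δ l (fun u => ∑ n ∈ F, c n * k (u - x n)) = fun u => ∑ n ∈ F, c n * ops δ l k (u - x n) := by
  induction l with
  | nil => rfl
  | cons p l ih =>
    rw [ops_cons, ih]
    funext u
    rw [op_sum p (ops_nice hδ l h)]
    rfl

/-! ### bounds on windows -/

theorem avg_sup {δ : ℝ} (hδ : 0 < δ) {g : ℝ → ℂ} {a b S : ℝ} (h : ∀ u ∈ Icc a (b + δ), ‖g u‖ ≤ S) :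
    ∀ u ∈ Icc a b, ‖avg δ g u‖ ≤ S := by
  intro u hu
  unfold avg
  have h1 : ‖∫ v in (0:ℝ)..δ, g (u + v)‖ ≤ S * |δ - 0| := by
    apply intervalIntegral.norm_integral_le_of_norm_le_const
    intro v hv
    rw [uIoc_of_le hδ.le] at hv
    exact h _ ⟨by linarith [hu.1, hv.1], by linarith [hu.2, hv.2]⟩
  rw [norm_mul, norm_div, norm_one, Complex.norm_real, Real.norm_of_nonneg hδ.le]
  rw [sub_zero, abs_of_pos hδ] at h1
  calc 1 / δ * ‖∫ v in (0:ℝ)..δ, g (u + v)‖ ≤ 1 / δ * (S * δ) := by gcongr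
    _ = S := by field_simp

theorem op_sup {δ : ℝ} (hδ : 0 < δ) (p : ℂ × ℂ) {g : ℝ → ℂ} {a b S : ℝ}
    (h : ∀ u ∈ Icc a (b + δ), ‖g u‖ ≤ S) : ∀ u ∈ Icc a b, ‖op δ p g u‖ ≤ wt δ p * S := by
  intro u hu
  exact norm_op_le hδ p (h u ⟨hu.1, by linarith [hu.2]⟩) (h (u + δ) ⟨by linarith [hu.1], by linarith [hu.2]⟩)
    (avg_sup hδ h u hu)

theorem ops_sup {δ : ℝ} (hδ : 0 < δ) (l : List (ℂ × ℂ)) {g : ℝ → ℂ} {a S : ℝ} : ∀ (b : ℝ),
    (∀ u ∈ Icc a (b + l.length * δ), ‖g u‖ ≤ S) → ∀ u ∈ Icc a b, ‖ops δ l g u‖ ≤ (l.map (wt δ)).prod * S := by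
  induction l with
  | nil =>
    intro b h u hu
    simpa [ops] using h u (by simpa using hu)
  | cons p l ih =>
    intro b h u hu
    rw [ops_cons, List.map_cons, List.prod_cons, mul_assoc]
    refine op_sup hδ p (a := a) (b := b) (fun v hv => ih (b + δ) (fun w hw => h w ?_) v hv) u hu
    rw [List.length_cons]
    push_cast
    exact ⟨hw.1, by linarith [hw.2]⟩

end

end Pool.Agent.N799.LW
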