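import Pool.Agent.N799.LW.Base

/-!
# The sum against the kernel as an integral over `Re s = 3/2`
-/

set_option autoImplicit false

open MeasureTheory Filter Topology Set

namespace Pool.Agent.N799.LW

open Pool.Agent.H295R2 (Nice Lap avg phi step step_nice Lap_step scale_integral)
open Pool.Agent.W190.Q306 (PG perron_gen)

noncomputable section

/-- the entire function `(e^z - 1)/z` -/
def ph (z : ℂ) : ℂ := dslope Complex.exp 0 z

theorem ph_diff : Differentiable ℂ ph := by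
  have h := (Complex.differentiableOn_dslope (f := Complex.exp) (c := (0 : ℂ)) (s := univ) (by simp)).2
    Complex.differentiable_exp.differentiableOn
  exact differentiableOn_univ.1 h

theorem ph_eq {z : ℂ} (hz : z ≠ 0) : ph z = (Complex.exp z - 1) / z := by
  unfold ph
  rw [dslope_of_ne _ hz, slope_def_field, Complex.exp_zero, sub_zero]

theorem ph_zero : ph 0 = 1 := by
  unfold ph
  rw [dslope_same]
  simp

theorem phi_ph {δ : ℝ} (hδ : 0 < δ) {s : ℂ} (hs : s ≠ 0) : phi δ s = ph (s * δ) := by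
  have hδ0 : (δ : ℂ) ≠ 0 := by exact_mod_cast hδ.ne'
  rw [ph_eq (mul_ne_zero hs hδ0)]
  rfl

theorem ph_near {z : ℂ} (hz : ‖z‖ ≤ 1) : 1 - ‖z‖ ≤ ‖ph z‖ := by
  rcases eq_or_ne z 0 with rfl | h0
  · rw [ph_zero]; simp
  · have h1 := Complex.norm_exp_sub_one_sub_id_le hz
    have hz0 : 0 < ‖z‖ := norm_pos_iff.2 h0
    have h2 : ‖ph z - 1‖ ≤ ‖z‖ := by
      have e : ph z - 1 = (Complex.exp z - 1 - z) / z := by
        rw [ph_eq h0]; field_simp
      rw [e, norm_div, div_le_iff₀ hz0]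
      nlinarith
    have h3 := norm_sub_norm_le (1 : ℂ) (1 - ph z)
    rw [sub_sub_cancel, norm_one, norm_sub_rev] at h3
    linarith

theorem ph_far {z : ℂ} (h0 : z ≠ 0) : ‖ph z‖ ≤ (Real.exp z.re + 1) / ‖z‖ := by
  rw [ph_eq h0, norm_div]
  gcongr
  refine (norm_sub_le _ _).trans ?_
  rw [Complex.norm_exp, norm_one]

theorem ph_le {δ : ℝ} (hδ : 0 < δ) {s : ℂ} (hs : s.re ≤ 3 / 2) : ‖ph (s * δ)‖ ≤ Real.exp (3 / 2 * δ) := by
  rcases eq_or_ne s 0 with rfl | h0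
  · rw [zero_mul, ph_zero, norm_one]
    exact Real.one_le_exp (by positivity)
  · rw [← phi_ph hδ h0, Pool.Agent.H295R2.phi_eq_integral hδ h0, norm_mul, norm_div, norm_one, Complex.norm_real,
      Real.norm_of_nonneg hδ.le]
    have h1 : ‖∫ v in (0:ℝ)..δ, Complex.exp (s * v)‖ ≤ Real.exp (3 / 2 * δ) * |δ - 0| := by
      apply intervalIntegral.norm_integral_le_of_norm_le_const
      intro v hv
      rw [uIoc_of_le hδ.le] at hv
      rw [Complex.norm_exp]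
      apply Real.exp_le_exp.2
      have : (s * (v : ℂ)).re = s.re * v := by simp
      rw [this]
      nlinarith [hv.1, hv.2]
    rw [sub_zero, abs_of_pos hδ] at h1
    calc 1 / δ * ‖∫ v in (0:ℝ)..δ, Complex.exp (s * v)‖ ≤ 1 / δ * (Real.exp (3 / 2 * δ) * δ) := by gcongr
      _ = _ := by field_simp

/-- the killing polynomial -/
def PP (Z : Finset ℂ) (ρ₀ s : ℂ) : ℂ := ∏ ρ ∈ Z, ((s - ρ) / (ρ₀ - ρ))

theorem PP_diff (Z : Finset ℂ) (ρ₀ : ℂ) : Differentiable ℂ (PP Z ρ₀) := by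
  unfold PP
  apply Differentiable.fun_finsetProd
  intro ρ _
  exact (differentiable_id.sub_const ρ).div_const _

/-- the multiplier -/
def EE (Z : Finset ℂ) (ρ₀ : ℂ) (δ U : ℝ) (M : ℕ) (s : ℂ) : ℂ :=
  1 / (ρ₀ * (ρ₀ - 1)) * (s - 1) * PP Z ρ₀ s * ph (s * δ) ^ M * Complex.exp (s * U)

theorem EE_diff (Z : Finset ℂ) (ρ₀ : ℂ) (δ U : ℝ) (M : ℕ) : Differentiable ℂ (EE Z ρ₀ δ U M) := by
  unfold EE
  have h1 : Differentiable ℂ fun s : ℂ => ph (s * δ) := ph_diff.comp (differentiable_id.mul_const _)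
  have h2 : Differentiable ℂ fun s : ℂ => Complex.exp (s * U) := by fun_prop
  exact ((((differentiable_const _).mul (differentiable_id.sub_const 1)).mul (PP_diff Z ρ₀)).mul
    (h1.pow M)).mul h2

/-- minus the logarithmic derivative -/
def Fz (s : ℂ) : ℂ := -(deriv riemannZeta s / riemannZeta s)

theorem zld_bound : ∃ C : ℝ, 0 < C ∧ ∀ s : ℂ, 3 / 2 ≤ s.re → ‖Fz s‖ ≤ C := by
  have hsum : LSeriesSummable (fun n => ((ArithmeticFunction.vonMangoldt n : ℝ) : ℂ)) ((3 / 2 : ℝ) : ℂ) :=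
    ArithmeticFunction.LSeriesSummable_vonMangoldt (by simp; norm_num)
  refine ⟨(∑' n, ‖LSeries.term (fun n => ((ArithmeticFunction.vonMangoldt n : ℝ) : ℂ)) ((3 / 2 : ℝ) : ℂ) n‖) + 1,
    ?_, fun s hs => ?_⟩
  · have : 0 ≤ ∑' n, ‖LSeries.term (fun n => ((ArithmeticFunction.vonMangoldt n : ℝ) : ℂ)) ((3 / 2 : ℝ) : ℂ) n‖ :=
      tsum_nonneg fun n => norm_nonneg _
    linarith
  · have h1 := ArithmeticFunction.LSeries_vonMangoldt_eq_deriv_riemannZeta_div (s := s) (by linarith)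
    have h2 : Fz s = LSeries (fun n => ((ArithmeticFunction.vonMangoldt n : ℝ) : ℂ)) s := by
      unfold Fz
      rw [← neg_div]
      exact h1.symm
    rw [h2]
    unfold LSeries
    have hle : ∀ n, ‖LSeries.term (fun n => ((ArithmeticFunction.vonMangoldt n : ℝ) : ℂ)) s n‖ ≤
        ‖LSeries.term (fun n => ((ArithmeticFunction.vonMangoldt n : ℝ) : ℂ)) ((3 / 2 : ℝ) : ℂ) n‖ := fun n =>
      LSeries.norm_term_le_of_re_le_re _ (by simpa using hs) n
    have hs2 : Summable fun n => ‖LSeries.term (fun n => ((ArithmeticFunction.vonMangoldt n : ℝ) : ℂ)) s n‖ :=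
      Summable.of_nonneg_of_le (fun n => norm_nonneg _) hle hsum.norm
    have h3 := norm_tsum_le_tsum_norm hs2
    have h4 := hs2.tsum_le_tsum hle hsum.norm
    linarith

/-- the list of operators -/
def lst (Z : Finset ℂ) (ρ₀ : ℂ) (m : ℕ) : List (ℂ × ℂ) :=
  (1 / ρ₀, 0) :: (Z.toList.map (fun ρ => ((1 / (ρ₀ - ρ) : ℂ), (-ρ / (ρ₀ - ρ) : ℂ))) ++ List.replicate m (0, 1))

theorem lst_length (Z : Finset ℂ) (ρ₀ : ℂ) (m : ℕ) : (lst Z ρ₀ m).length = Z.card + m + 1 := by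
  unfold lst
  simp

theorem lst_prod (Z : Finset ℂ) (ρ₀ : ℂ) (m : ℕ) (s : ℂ) :
    ((lst Z ρ₀ m).map fun p => p.1 * s + p.2).prod = s / ρ₀ * PP Z ρ₀ s := by
  unfold lst PP
  rw [List.map_cons, List.prod_cons, List.map_append, List.prod_append, List.map_replicate,
    List.prod_replicate, List.map_map, ← Finset.prod_map_toList]
  have e : ((fun p : ℂ × ℂ => p.1 * s + p.2) ∘ fun ρ => ((1 / (ρ₀ - ρ) : ℂ), (-ρ / (ρ₀ - ρ) : ℂ))) =
      fun ρ => (s - ρ) / (ρ₀ - ρ) := by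
    funext ρ
    simp only [Function.comp]
    ring
  rw [e]
  simp only [zero_mul, zero_add, one_pow, mul_one, add_zero]
  ring

theorem lst_wt (Z : Finset ℂ) (ρ₀ : ℂ) (m : ℕ) {δ : ℝ} (hδ : 0 < δ) :
    ((lst Z ρ₀ m).map (wt δ)).prod = 2 / (δ * ‖ρ₀‖) * ∏ ρ ∈ Z, ((2 / δ + ‖ρ‖) / ‖ρ₀ - ρ‖) := by
  unfold lst
  rw [List.map_cons, List.prod_cons, List.map_append, List.prod_append, List.map_replicate,
    List.prod_replicate, List.map_map, ← Finset.prod_map_toList]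
  have e : (wt δ ∘ fun ρ => ((1 / (ρ₀ - ρ) : ℂ), (-ρ / (ρ₀ - ρ) : ℂ))) =
      fun ρ => (2 / δ + ‖ρ‖) / ‖ρ₀ - ρ‖ := by
    funext ρ
    simp only [Function.comp, wt]
    rw [norm_div, norm_div, norm_one, norm_neg]
    ring
  rw [e]
  have e2 : wt δ (0, 1) = 1 := by simp [wt]
  have e3 : wt δ (1 / ρ₀, 0) = 2 / (δ * ‖ρ₀‖) := by
    simp only [wt, norm_zero, add_zero]
    rw [norm_div, norm_one]
    by_cases h : ‖ρ₀‖ = 0
    · rw [h]; simp
    · field_simp
  rw [e2, e3, one_pow, mul_one]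

/-- the kernel -/
def kk (Z : Finset ℂ) (ρ₀ : ℂ) (m : ℕ) (δ : ℝ) : ℝ → ℂ :=
  ops δ (lst Z ρ₀ m) (op δ (1 / (ρ₀ - 1), -(1 / (ρ₀ - 1))) (avg δ step))

theorem Lap_kk (Z : Finset ℂ) {ρ₀ : ℂ} (m : ℕ) {δ : ℝ} (hδ : 0 < δ) (h0 : ρ₀ ≠ 0) (h1 : ρ₀ - 1 ≠ 0) {s : ℂ}
    (hs : 0 < s.re) : Lap (kk Z ρ₀ m δ) s =
      1 / (ρ₀ * (ρ₀ - 1)) * (s - 1) * PP Z ρ₀ s * ph (s * δ) ^ (Z.card + m + 3) := by
  have hs0 : s ≠ 0 := by rintro rfl; simp at hs
  have n1 := step_nice.avg hδ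
  have n2 := op_nice hδ (1 / (ρ₀ - 1), -(1 / (ρ₀ - 1))) n1
  unfold kk
  rw [Lap_ops hδ _ n2 hs, Lap_op hδ _ n1 hs, step_nice.Lap_avg hδ hs, Lap_step hs, lst_length, lst_prod,
    phi_ph hδ hs0]
  simp only
  have e : ph (s * δ) ^ (Z.card + m + 3) = ph (s * δ) ^ (Z.card + m + 1) * ph (s * δ) * ph (s * δ) := by ring
  rw [e]
  field_simp
  ring

theorem perron_H (Z : Finset ℂ) {ρ₀ : ℂ} (m : ℕ) {δ U : ℝ} (hδ : 0 < δ) (hδ1 : δ ≤ 1) (h0 : ρ₀ ≠ 0)
    (h1 : ρ₀ - 1 ≠ 0) {N : ℕ} (hN : 1 ≤ N) (hN2 : U + (Z.card + m + 5 : ℕ) * δ ≤ Real.log N) :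
    ∑ n ∈ Finset.Icc 1 N, ((ArithmeticFunction.vonMangoldt n : ℝ) : ℂ) *
      avg δ (avg δ (kk Z ρ₀ m δ)) (U - Real.log n) =
    ((2 * Real.pi)⁻¹ : ℂ) * ∫ y : ℝ, Fz (((3 / 2 : ℝ) : ℂ) + y * Complex.I) *
      EE Z ρ₀ δ U (Z.card + m + 5) (((3 / 2 : ℝ) : ℂ) + y * Complex.I) := by
  have n1 := step_nice.avg hδ
  have n2 := op_nice hδ (1 / (ρ₀ - 1), -(1 / (ρ₀ - 1))) n1
  have n3 := ops_nice hδ (lst Z ρ₀ m) n2
  have n4 := n3.avg hδ
  have n5 := n4.avg hδ
  obtain ⟨Cf, hCf, hb⟩ := zld_bound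
  have hne : ∀ s : ℂ, 3 / 2 ≤ s.re → riemannZeta s ≠ 0 := fun s hs =>
    riemannZeta_ne_zero_of_one_lt_re (by linarith)
  have key := perron_gen (σ := 3 / 2) (x := U) (F := Fz)
    (a := fun n => ((ArithmeticFunction.vonMangoldt n : ℝ) : ℂ)) (Cf := Cf) (by norm_num) (by norm_num)
    (fun s hs1 _ => by
      have hs3 : s ≠ 1 := by rintro rfl; norm_num at hs1
      unfold Fz
      have d1 : DifferentiableAt ℂ riemannZeta s := differentiableAt_riemannZeta hs3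
      have d2 : AnalyticAt ℂ riemannZeta s := by
        apply DifferentiableOn.analyticAt (s := {s : ℂ | s ≠ 1}) _ (isOpen_ne.mem_nhds hs3)
        intro z hz
        exact (differentiableAt_riemannZeta hz).differentiableWithinAt
      exact (d2.deriv.differentiableAt.div d1 (hne s hs1)).neg)
    (fun s hs1 _ => by
      refine (hb s hs1).trans ?_
      have : 1 ≤ (1 + |s.im|) ^ (1 / 2 : ℝ) := Real.one_le_rpow (by linarith [abs_nonneg s.im]) (by norm_num)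
      nlinarith)
    (by
      have h2 : LSeriesSummable (fun n => ((ArithmeticFunction.vonMangoldt n : ℝ) : ℂ)) 2 :=
        ArithmeticFunction.LSeriesSummable_vonMangoldt (by norm_num)
      refine h2.norm.congr fun n => ?_
      rw [LSeries.norm_term_eq]
      by_cases hn : n = 0
      · simp [hn]
      · rw [if_neg hn]
        have : ((2 : ℂ)).re = (2 : ℝ) := by norm_num
        rw [this]
        norm_cast
        ring)
    (by simp)
    (fun s hs => by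
      have h3 := ArithmeticFunction.LSeries_vonMangoldt_eq_deriv_riemannZeta_div (s := s) (by linarith)
      unfold Fz
      rw [← neg_div]
      exact h3)
    n3 hδ hδ1
  have hzero : ∀ n ∉ Finset.Icc 1 N, ((ArithmeticFunction.vonMangoldt n : ℝ) : ℂ) *
      avg δ (avg δ (kk Z ρ₀ m δ)) (U - Real.log n) = 0 := by
    intro n hn
    rcases Nat.eq_zero_or_pos n with rfl | hn0
    · simp
    · have hn1 : N < n := by
        by_contra hcon
        exact hn (Finset.mem_Icc.mpr ⟨hn0, by omega⟩)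
      rw [show avg δ (avg δ (kk Z ρ₀ m δ)) (U - Real.log n) = 0 from n5.zero _ ?_, mul_zero]
      rw [lst_length]
      have h2 : Real.log N < Real.log n := by
        apply Real.log_lt_log (by exact_mod_cast hN)
        exact_mod_cast hn1
      push_cast at hN2 ⊢
      linarith
  have hsum := (hasSum_sum_of_ne_finset_zero hzero).unique key
  rw [hsum, scale_integral]
  push_cast
  congr 1
  apply integral_congr_ae
  refine Eventually.of_forall fun y => ?_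
  simp only
  have hre : 0 < (((3 / 2 : ℝ) : ℂ) + y * Complex.I).re := by simp
  have hs0 : (((3 / 2 : ℝ) : ℂ) + y * Complex.I) ≠ 0 := by
    intro h; rw [h] at hre; simp at hre
  unfold PG EE
  have e := Lap_kk Z m hδ h0 h1 hre
  unfold kk at e
  push_cast at e hs0 ⊢
  rw [e, phi_ph hδ hs0]
  ring

end

end Pool.Agent.N799.LW
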