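import Pool.Agent.N799.LW.Perron
import Pool.Agent.H370R2.DirGood
import Pool.Agent.H370R2.Local
import Pool.Agent.H370R2.Rect

/-!
# Shifting the contour in a rectangle
-/

set_option autoImplicit false

open MeasureTheory Filter Topology Set

namespace Pool.Agent.N799.LW

open Pool.Agent.H295R2 (Zs Zs_eq Zs_differentiable)
open H370 (rect_residue mult good_zeta good_height)

noncomputable section

theorem logDeriv_Zs {s : ℂ} (h1 : s ≠ 1) (h0 : riemannZeta s ≠ 0) :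
    deriv Zs s / Zs s = -Fz s + 1 / (s - 1) := by
  have hs1 : s - 1 ≠ 0 := sub_ne_zero.2 h1
  have hev : Zs =ᶠ[𝓝 s] fun z => (z - 1) * riemannZeta z := by
    filter_upwards [isOpen_ne.mem_nhds h1] with z hz
    exact (Zs_eq hz).symm
  have hd : deriv Zs s = riemannZeta s + (s - 1) * deriv riemannZeta s := by
    rw [hev.deriv_eq]
    have h1 : HasDerivAt (fun z : ℂ => z - 1) 1 s := (hasDerivAt_id s).sub_const 1
    have h2 : HasDerivAt riemannZeta (deriv riemannZeta s) s := (differentiableAt_riemannZeta ‹_›).hasDerivAt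
    have h3 := (h1.fun_mul h2).deriv
    rw [h3]; ring
  rw [hd, ← Zs_eq h1]
  unfold Fz
  field_simp
  ring

theorem Zs_zero_iff {s : ℂ} (h1 : s ≠ 1) : Zs s = 0 ↔ riemannZeta s = 0 := by
  rw [← Zs_eq h1, mul_eq_zero]
  constructor
  · rintro (h | h)
    · exact absurd (sub_eq_zero.1 h) h1
    · exact h
  · exact Or.inr

theorem Zs_one_ne : Zs 1 ≠ 0 := by
  rw [Zs, riemannZeta₁_one]; exact one_ne_zero

theorem zeta_deriv_conj (s : ℂ) : deriv riemannZeta ((starRingEnd ℂ) s) = (starRingEnd ℂ) (deriv riemannZeta s) := by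
  have e : riemannZeta = (starRingEnd ℂ) ∘ riemannZeta ∘ (starRingEnd ℂ) := by
    funext u
    rw [Function.comp_apply, Function.comp_apply, riemannZeta_conj, Complex.conj_conj]
  conv_lhs => rw [e]
  rw [deriv_conj_conj, Function.comp_apply, Function.comp_apply, Complex.conj_conj]

theorem Fz_conj (s : ℂ) : Fz ((starRingEnd ℂ) s) = (starRingEnd ℂ) (Fz s) := by
  unfold Fz
  rw [zeta_deriv_conj, riemannZeta_conj, map_neg, map_div₀]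

theorem mk_conj (x y : ℝ) : (⟨x, -y⟩ : ℂ) = (starRingEnd ℂ) ⟨x, y⟩ := rfl

/-- no zeros on the line `Re s = -1/2` -/
theorem left_ne (y : ℝ) : riemannZeta ⟨-1 / 2, y⟩ ≠ 0 := by
  have e : (⟨-1 / 2, y⟩ : ℂ) = 1 - ⟨3 / 2, -y⟩ := by
    apply Complex.ext
    · simp; norm_num
    · simp
  have hn : ∀ n : ℕ, (⟨3 / 2, -y⟩ : ℂ) ≠ -n := by
    intro n hn
    have := congrArg Complex.re hn
    simp at this
    have h2 : (0 : ℝ) ≤ n := Nat.cast_nonneg n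
    linarith
  have h1 : (⟨3 / 2, -y⟩ : ℂ) ≠ 1 := by
    intro h
    have := congrArg Complex.re h
    norm_num at this
  rw [e, riemannZeta_one_sub hn h1]
  have hz : riemannZeta ⟨3 / 2, -y⟩ ≠ 0 := riemannZeta_ne_zero_of_one_lt_re (by norm_num)
  have hG : Complex.Gamma ⟨3 / 2, -y⟩ ≠ 0 := Complex.Gamma_ne_zero hn
  have hp : (2 * (Real.pi : ℂ)) ^ (-(⟨3 / 2, -y⟩ : ℂ)) ≠ 0 := by
    rw [Complex.cpow_def_of_ne_zero]
    · exact Complex.exp_ne_zero _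
    · norm_num [Real.pi_ne_zero]
  have hc : Complex.cos (Real.pi * (⟨3 / 2, -y⟩ : ℂ) / 2) ≠ 0 := by
    intro hc
    rw [Complex.cos_eq_zero_iff] at hc
    obtain ⟨k, hk⟩ := hc
    have hpi : (Real.pi : ℂ) ≠ 0 := by exact_mod_cast Real.pi_ne_zero
    have hs2 : (⟨3 / 2, -y⟩ : ℂ) = 2 * (k : ℂ) + 1 := by
      field_simp at hk
      exact hk
    have := congrArg Complex.re hs2
    simp at this
    have h3 : (3 : ℝ) = 4 * k + 2 := by linarith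
    have h4 : (3 : ℤ) = 4 * k + 2 := by exact_mod_cast h3
    omega
  exact mul_ne_zero (mul_ne_zero (mul_ne_zero (mul_ne_zero two_ne_zero hp) hG) hc) hz

theorem ne1_of_re {x y : ℝ} (h : x ≠ 1) : (⟨x, y⟩ : ℂ) ≠ 1 := by
  intro h1
  exact h (congrArg Complex.re h1)

theorem ne1_of_im {x y : ℝ} (h : y ≠ 0) : (⟨x, y⟩ : ℂ) ≠ 1 := by
  intro h1
  exact h (congrArg Complex.im h1)

/-- the logarithmic derivative on the line `Re s = -1/2` -/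
theorem left_bound : ∃ C : ℝ, 1 ≤ C ∧ ∀ y : ℝ, ‖Fz ⟨-1 / 2, y⟩‖ ≤ C * (1 + |y|) := by
  obtain ⟨C1, hC1⟩ := good_zeta.left
  obtain ⟨C2, hC2, h2⟩ := zld_bound
  have hcont : Continuous fun y : ℝ => Fz ⟨-1 / 2, y⟩ := by
    have e : (fun y : ℝ => Fz ⟨-1 / 2, y⟩) = fun y : ℝ => Fz ((-1 / 2 : ℝ) + y * Complex.I) := by
      funext y
      congr 1
      exact Complex.mk_eq_add_mul_I _ _
    rw [e, continuous_iff_continuousAt]
    intro y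
    have h1 : ((-1 / 2 : ℝ) : ℂ) + y * Complex.I ≠ 1 := by
      intro h
      have := congrArg Complex.re h
      norm_num at this
    have h0 : riemannZeta (((-1 / 2 : ℝ) : ℂ) + y * Complex.I) ≠ 0 := by
      rw [← Complex.mk_eq_add_mul_I]
      exact left_ne y
    have hF : ContinuousAt Fz (((-1 / 2 : ℝ) : ℂ) + y * Complex.I) := by
      unfold Fz
      have d1 : DifferentiableAt ℂ riemannZeta (((-1 / 2 : ℝ) : ℂ) + y * Complex.I) :=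
        differentiableAt_riemannZeta h1
      have d2 : AnalyticAt ℂ riemannZeta (((-1 / 2 : ℝ) : ℂ) + y * Complex.I) := by
        apply DifferentiableOn.analyticAt (s := {s : ℂ | s ≠ 1}) _ (isOpen_ne.mem_nhds h1)
        intro z hz
        exact (differentiableAt_riemannZeta hz).differentiableWithinAt
      exact (d2.deriv.continuousAt.div d1.continuousAt h0).neg
    exact ContinuousAt.comp (f := fun y : ℝ => ((-1 / 2 : ℝ) : ℂ) + y * Complex.I) hF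
      (by fun_prop)
  obtain ⟨C3, hC3⟩ := (isCompact_Icc (a := (-1 : ℝ)) (b := 1)).exists_bound_of_continuousOn hcont.continuousOn
  have hpos : ∀ y : ℝ, 1 ≤ y → ‖Fz ⟨-1 / 2, y⟩‖ ≤ (|C1| + C2 + 1) * (1 + |y|) := by
    intro y hy
    have h3 := hC1 ⟨-1 / 2, y⟩ le_rfl (by norm_num) hy (left_ne y)
    have e1 : (1 : ℂ) - (starRingEnd ℂ) ⟨-1 / 2, y⟩ = ⟨3 / 2, y⟩ := by
      apply Complex.ext
      · simp; norm_num
      · simp
    rw [e1] at h3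
    have h4 := h2 ⟨3 / 2, y⟩ le_rfl
    unfold Fz at h4 ⊢
    rw [norm_neg] at h4 ⊢
    set A := deriv riemannZeta ⟨-1 / 2, y⟩ / riemannZeta ⟨-1 / 2, y⟩ with hA
    set B := deriv riemannZeta ⟨3 / 2, y⟩ / riemannZeta ⟨3 / 2, y⟩ with hB
    simp only at h3
    have h5 : A = (A + (Real.log y : ℂ) + (starRingEnd ℂ) B) - (Real.log y : ℂ) - (starRingEnd ℂ) B := by ring
    have h6 : ‖A‖ ≤ C1 + Real.log y + C2 := by
      rw [h5]
      refine (norm_sub_le _ _).trans ?_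
      refine (add_le_add (norm_sub_le _ _) le_rfl).trans ?_
      rw [Complex.norm_conj, Complex.norm_real, Real.norm_of_nonneg (Real.log_nonneg hy)]
      linarith
    have h7 : Real.log y ≤ y := (Real.log_le_sub_one_of_pos (by linarith)).trans (by linarith)
    have h8 : |y| = y := abs_of_nonneg (by linarith)
    rw [h8]
    have h9 := le_abs_self C1
    nlinarith [abs_nonneg C1]
  refine ⟨|C1| + C2 + 1 + |C3|, by nlinarith [abs_nonneg C1, abs_nonneg C3], fun y => ?_⟩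
  have hy0 := abs_nonneg y
  have a1 := abs_nonneg C1
  have a3 := abs_nonneg C3
  rcases le_or_gt 1 |y| with hy | hy
  · have h4 : ‖Fz ⟨-1 / 2, y⟩‖ ≤ (|C1| + C2 + 1) * (1 + |y|) := by
      rcases le_abs.1 hy with h | h
      · exact hpos y h
      · have h5 := hpos (-y) h
        rw [mk_conj, Fz_conj, Complex.norm_conj, abs_neg] at h5
        exact h5
    nlinarith
  · have h4 := hC3 y (abs_le.1 hy.le)
    have h5 := le_abs_self C3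
    nlinarith

/-- zeros in the rectangle -/
def RZ (T : ℝ) : Set ℂ := {s | s ∈ Set.Ioo (-1 / 2 : ℝ) (3 / 2) ×ℂ Set.Ioo (-T) T ∧ Zs s = 0}

theorem RZ_mem {T : ℝ} {s : ℂ} (h : s ∈ RZ T) : riemannZeta s = 0 ∧ s ≠ 1 ∧ -1 / 2 < s.re ∧ s.re < 1 ∧ |s.im| < T := by
  obtain ⟨⟨h1, h2⟩, h3⟩ := h
  have h4 : s ≠ 1 := by rintro rfl; exact Zs_one_ne h3
  have h5 := (Zs_zero_iff h4).1 h3
  refine ⟨h5, h4, h1.1, ?_, abs_lt.2 h2⟩
  by_contra hcon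
  exact riemannZeta_ne_zero_of_one_le_re (not_lt.1 hcon) h5

/-- the main contour estimate -/
theorem rect_main : ∃ C : ℝ, 1 ≤ C ∧ ∀ T1 : ℝ, 3 ≤ T1 → ∃ T ∈ Icc T1 (T1 + 1), (RZ T).Finite ∧
    ‖∑ᶠ s ∈ RZ T, (mult Zs s : ℂ)‖ ≤ C * T ^ 2 ∧
    ∀ (h : ℂ → ℂ) (B : ℝ), Differentiable ℂ h → h 1 = 0 →
      (∀ x ∈ Icc (-1 / 2 : ℝ) (3 / 2), ‖h ⟨x, T⟩‖ ≤ B) → (∀ x ∈ Icc (-1 / 2 : ℝ) (3 / 2), ‖h ⟨x, -T⟩‖ ≤ B) →
      (∀ y ∈ Icc (-T) T, ‖h ⟨-1 / 2, y⟩‖ ≤ B) →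
      ‖(∫ y in (-T)..T, Fz ⟨3 / 2, y⟩ * h ⟨3 / 2, y⟩) +
        2 * Real.pi * ∑ᶠ s ∈ RZ T, (mult Zs s : ℂ) * h s‖ ≤ C * T ^ 2 * B := by
  obtain ⟨C1, hC1, hg⟩ := good_height good_zeta
  obtain ⟨C2, hC2, hl⟩ := left_bound
  obtain ⟨C3, hC3, hr⟩ := zld_bound
  refine ⟨4 * (C1 + 1) + 8 * C2 + 16 + 2 * (C3 + 2), by linarith, fun T1 hT1 => ?_⟩
  obtain ⟨T, hT, hgT⟩ := hg T1 hT1
  have hT3 : 3 ≤ T := hT1.trans hT.1
  have hlogT : Real.log T1 ^ 2 ≤ T ^ 2 := by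
    have h1 : Real.log T1 ≤ T := (Real.log_le_sub_one_of_pos (by linarith)).trans (by linarith [hT.1])
    have h2 : 0 ≤ Real.log T1 := Real.log_nonneg (by linarith)
    exact pow_le_pow_left₀ h2 h1 2
  -- nonvanishing on the boundary
  have nt : ∀ x ∈ Icc (-1 / 2 : ℝ) (3 / 2), riemannZeta ⟨x, T⟩ ≠ 0 := fun x hx => (hgT x hx).1
  have nb : ∀ x ∈ Icc (-1 / 2 : ℝ) (3 / 2), riemannZeta ⟨x, -T⟩ ≠ 0 := by
    intro x hx h0
    rw [mk_conj, riemannZeta_conj] at h0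
    exact nt x hx ((map_eq_zero _).1 h0)
  have ft : ∀ x ∈ Icc (-1 / 2 : ℝ) (3 / 2), ‖Fz ⟨x, T⟩‖ ≤ C1 * T ^ 2 := by
    intro x hx
    have := (hgT x hx).2
    unfold Fz
    rw [norm_neg]
    refine this.trans ?_
    gcongr
  have fb : ∀ x ∈ Icc (-1 / 2 : ℝ) (3 / 2), ‖Fz ⟨x, -T⟩‖ ≤ C1 * T ^ 2 := by
    intro x hx
    rw [mk_conj, Fz_conj, Complex.norm_conj]
    exact ft x hx
  have hbd : ∀ s ∈ Set.Icc (-1 / 2 : ℝ) (3 / 2) ×ℂ Set.Icc (-T) T, Zs s = 0 →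
      s ∈ Set.Ioo (-1 / 2 : ℝ) (3 / 2) ×ℂ Set.Ioo (-T) T := by
    rintro s ⟨hs1, hs2⟩ h0
    have hs1' : s.re ∈ Icc (-1 / 2 : ℝ) (3 / 2) := hs1
    have hs2' : s.im ∈ Icc (-T) T := hs2
    have h4 : s ≠ 1 := by rintro rfl; exact Zs_one_ne h0
    have h5 := (Zs_zero_iff h4).1 h0
    have es : s = ⟨s.re, s.im⟩ := rfl
    refine ⟨⟨lt_of_le_of_ne hs1'.1 ?_, lt_of_le_of_ne hs1'.2 ?_⟩, ⟨lt_of_le_of_ne hs2'.1 ?_, lt_of_le_of_ne hs2'.2 ?_⟩⟩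
    · intro h
      rw [es, ← h] at h5
      exact left_ne _ h5
    · intro h
      exact riemannZeta_ne_zero_of_one_le_re (by rw [h]; norm_num) h5
    · intro h
      rw [es, ← h] at h5
      exact nb _ hs1' h5
    · intro h
      rw [es, h] at h5
      exact nt _ hs1' h5
  have han : AnalyticOnNhd ℂ Zs (Set.Icc (-1 / 2 : ℝ) (3 / 2) ×ℂ Set.Icc (-T) T) := fun z _ =>
    Zs_differentiable.analyticAt z
  obtain ⟨hfin, hcnt⟩ := rect_residue Zs (fun _ => 1) (-1 / 2) (3 / 2) (-T) T (by norm_num) (by linarith) han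
    (differentiable_const _) hbd
  -- pointwise bounds on the edges
  have inv_im : ∀ x : ℝ, ‖(1 : ℂ) / ((⟨x, T⟩ : ℂ) - 1)‖ ≤ 1 := by
    intro x
    rw [norm_div, norm_one]
    apply div_le_one_of_le₀ _ (norm_nonneg _)
    have := (le_abs_self _).trans (Complex.abs_im_le_norm ((⟨x, T⟩ : ℂ) - 1))
    simp at this
    linarith
  have inv_im' : ∀ x : ℝ, ‖(1 : ℂ) / ((⟨x, -T⟩ : ℂ) - 1)‖ ≤ 1 := by
    intro x
    rw [norm_div, norm_one]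
    apply div_le_one_of_le₀ _ (norm_nonneg _)
    have := (neg_le_abs _).trans (Complex.abs_im_le_norm ((⟨x, -T⟩ : ℂ) - 1))
    simp at this
    linarith
  have inv_re : ∀ y : ℝ, ‖(1 : ℂ) / ((⟨-1 / 2, y⟩ : ℂ) - 1)‖ ≤ 1 := by
    intro y
    rw [norm_div, norm_one]
    apply div_le_one_of_le₀ _ (norm_nonneg _)
    have := (neg_le_abs _).trans (Complex.abs_re_le_norm ((⟨-1 / 2, y⟩ : ℂ) - 1))
    simp at this
    linarith
  have inv_re' : ∀ y : ℝ, ‖(1 : ℂ) / ((⟨3 / 2, y⟩ : ℂ) - 1)‖ ≤ 2 := by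
    intro y
    rw [norm_div, norm_one]
    have h1 := (le_abs_self _).trans (Complex.abs_re_le_norm ((⟨3 / 2, y⟩ : ℂ) - 1))
    simp at h1
    have h2 : (1 : ℝ) / 2 ≤ ‖(⟨3 / 2, y⟩ : ℂ) - 1‖ := by linarith
    rw [div_le_iff₀ (by linarith)]
    linarith
  have hc1 : 0 ≤ C1 * T ^ 2 := by positivity
  have g1 : ∀ x ∈ Icc (-1 / 2 : ℝ) (3 / 2), ‖deriv Zs (⟨x, -T⟩ : ℂ) / Zs ⟨x, -T⟩‖ ≤ C1 * T ^ 2 + 1 := by
    intro x hx
    rw [logDeriv_Zs (ne1_of_im (by linarith)) (nb x hx)]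
    have := norm_add_le (-Fz ⟨x, -T⟩) (1 / ((⟨x, -T⟩ : ℂ) - 1))
    rw [norm_neg] at this
    exact this.trans (add_le_add (fb x hx) (inv_im' x))
  have g2 : ∀ x ∈ Icc (-1 / 2 : ℝ) (3 / 2), ‖deriv Zs (⟨x, T⟩ : ℂ) / Zs ⟨x, T⟩‖ ≤ C1 * T ^ 2 + 1 := by
    intro x hx
    rw [logDeriv_Zs (ne1_of_im (by linarith)) (nt x hx)]
    have := norm_add_le (-Fz ⟨x, T⟩) (1 / ((⟨x, T⟩ : ℂ) - 1))
    rw [norm_neg] at this
    exact this.trans (add_le_add (ft x hx) (inv_im x))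
  have g3 : ∀ y ∈ Icc (-T) T, ‖deriv Zs (⟨-1 / 2, y⟩ : ℂ) / Zs ⟨-1 / 2, y⟩‖ ≤ C2 * (1 + T) + 1 := by
    intro y hy
    rw [logDeriv_Zs (ne1_of_re (by norm_num)) (left_ne y)]
    have := norm_add_le (-Fz ⟨-1 / 2, y⟩) (1 / ((⟨-1 / 2, y⟩ : ℂ) - 1))
    rw [norm_neg] at this
    have h5 : C2 * (1 + |y|) ≤ C2 * (1 + T) := by
      have : |y| ≤ T := abs_le.2 hy
      gcongr
    exact this.trans (add_le_add ((hl y).trans h5) (inv_re y))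
  have g4 : ∀ y : ℝ, ‖deriv Zs (⟨3 / 2, y⟩ : ℂ) / Zs ⟨3 / 2, y⟩‖ ≤ C3 + 2 := by
    intro y
    rw [logDeriv_Zs (ne1_of_re (by norm_num)) (riemannZeta_ne_zero_of_one_lt_re (by norm_num))]
    have := norm_add_le (-Fz ⟨3 / 2, y⟩) (1 / ((⟨3 / 2, y⟩ : ℂ) - 1))
    rw [norm_neg] at this
    exact this.trans (add_le_add (hr _ (by norm_num)) (inv_re' y))
  have a1 : |(3 : ℝ) / 2 - (-1 / 2)| = 2 := by norm_num
  have a2 : |T - (-T)| = 2 * T := by rw [abs_of_pos (by linarith)]; ring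
  have hcount : ‖∑ᶠ s ∈ RZ T, (mult Zs s : ℂ)‖ ≤ (4 * (C1 + 1) + 8 * C2 + 16 + 2 * (C3 + 2)) * T ^ 2 := by
    simp only [mul_one] at hcnt
    have k1 : ‖∫ x in (-1 / 2 : ℝ)..(3 / 2), deriv Zs (⟨x, -T⟩ : ℂ) / Zs ⟨x, -T⟩‖ ≤
        (C1 * T ^ 2 + 1) * |3 / 2 - (-1 / 2)| := by
      apply intervalIntegral.norm_integral_le_of_norm_le_const
      intro x hx
      rw [uIoc_of_le (by norm_num)] at hx
      exact g1 x ⟨hx.1.le, hx.2⟩
    have k2 : ‖∫ x in (-1 / 2 : ℝ)..(3 / 2), deriv Zs (⟨x, T⟩ : ℂ) / Zs ⟨x, T⟩‖ ≤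
        (C1 * T ^ 2 + 1) * |3 / 2 - (-1 / 2)| := by
      apply intervalIntegral.norm_integral_le_of_norm_le_const
      intro x hx
      rw [uIoc_of_le (by norm_num)] at hx
      exact g2 x ⟨hx.1.le, hx.2⟩
    have k3 : ‖∫ y in (-T)..T, deriv Zs (⟨-1 / 2, y⟩ : ℂ) / Zs ⟨-1 / 2, y⟩‖ ≤
        (C2 * (1 + T) + 1) * |T - (-T)| := by
      apply intervalIntegral.norm_integral_le_of_norm_le_const
      intro y hy
      rw [uIoc_of_le (by linarith)] at hy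
      exact g3 y ⟨hy.1.le, hy.2⟩
    have k4 : ‖∫ y in (-T)..T, deriv Zs (⟨3 / 2, y⟩ : ℂ) / Zs ⟨3 / 2, y⟩‖ ≤ (C3 + 2) * |T - (-T)| := by
      apply intervalIntegral.norm_integral_le_of_norm_le_const
      intro y hy
      exact g4 y
    rw [a1] at k1 k2
    rw [a2] at k3 k4
    set K1 := ∫ x in (-1 / 2 : ℝ)..(3 / 2), deriv Zs (⟨x, -T⟩ : ℂ) / Zs ⟨x, -T⟩
    set K2 := ∫ x in (-1 / 2 : ℝ)..(3 / 2), deriv Zs (⟨x, T⟩ : ℂ) / Zs ⟨x, T⟩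
    set K3 := ∫ y in (-T)..T, deriv Zs (⟨-1 / 2, y⟩ : ℂ) / Zs ⟨-1 / 2, y⟩
    set K4 := ∫ y in (-T)..T, deriv Zs (⟨3 / 2, y⟩ : ℂ) / Zs ⟨3 / 2, y⟩
    have hset : RZ T = {s | s ∈ Set.Ioo (-1 / 2 : ℝ) (3 / 2) ×ℂ Set.Ioo (-T) T ∧ Zs s = 0} := rfl
    rw [← hset] at hcnt
    set Sg := ∑ᶠ s ∈ RZ T, (mult Zs s : ℂ) with hSg
    have e : ‖(2 * Real.pi * Complex.I) * Sg‖ = 2 * Real.pi * ‖Sg‖ := by
      rw [norm_mul, norm_mul, norm_mul, Complex.norm_I, Complex.norm_real, Complex.norm_ofNat,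
        Real.norm_of_nonneg Real.pi_pos.le, mul_one]
    have t1 : ‖K1 - K2 + Complex.I * K4 - Complex.I * K3‖ ≤ ‖K1‖ + ‖K2‖ + ‖K4‖ + ‖K3‖ := by
      refine (norm_sub_le _ _).trans ?_
      refine (add_le_add (norm_add_le _ _) le_rfl).trans ?_
      refine (add_le_add (add_le_add (norm_sub_le _ _) le_rfl) le_rfl).trans ?_
      rw [norm_mul, norm_mul, Complex.norm_I, one_mul, one_mul]
    rw [hcnt, e] at t1
    have hpi : 1 ≤ 2 * Real.pi := by linarith [Real.pi_gt_three]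
    have h5 : ‖Sg‖ ≤ 2 * Real.pi * ‖Sg‖ := by nlinarith [norm_nonneg Sg]
    have h7 : T ≤ T ^ 2 := by nlinarith
    have h8 : 2 * C2 * (T + T ^ 2) ≤ 2 * C2 * (T ^ 2 + T ^ 2) := by gcongr
    have h9 : (C3 + 2) * (2 * T) ≤ (C3 + 2) * (2 * T ^ 2) := by gcongr
    nlinarith [sq_nonneg T]
  refine ⟨T, hT, hfin, hcount, fun h B hh h1 htB hbB hlB => ?_⟩
  have hB : 0 ≤ B := (norm_nonneg _).trans (htB 0 ⟨by norm_num, by norm_num⟩)
  have r1 := (rect_residue Zs h (-1 / 2) (3 / 2) (-T) T (by norm_num) (by linarith) han hh hbd).2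
  have r2 := (rect_residue (fun s : ℂ => s - 1) h (-1 / 2) (3 / 2) (-T) T (by norm_num) (by linarith)
    (fun z _ => (analyticAt_id).sub analyticAt_const) hh (by
      intro s _ h0
      have : s = 1 := sub_eq_zero.1 h0
      rw [this]
      refine ⟨⟨?_, ?_⟩, ⟨?_, ?_⟩⟩ <;> simp <;> linarith)).2
  have hsum0 : ∑ᶠ s ∈ {s | s ∈ Set.Ioo (-1 / 2 : ℝ) (3 / 2) ×ℂ Set.Ioo (-T) T ∧ s - 1 = 0},
      (mult (fun s : ℂ => s - 1) s : ℂ) * h s = 0 := by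
    apply finsum_mem_eq_zero_of_forall_eq_zero
    rintro s ⟨-, hs⟩
    rw [sub_eq_zero.1 hs, h1, mul_zero]
  rw [hsum0, mul_zero] at r2
  have hd1 : ∀ s : ℂ, deriv (fun s : ℂ => s - 1) s = 1 := by
    intro s
    simp
  simp only [hd1] at r2
  have b1 : ‖∫ x in (-1 / 2 : ℝ)..(3 / 2), deriv Zs (⟨x, -T⟩ : ℂ) / Zs ⟨x, -T⟩ * h ⟨x, -T⟩‖ ≤
      (C1 * T ^ 2 + 1) * B * |3 / 2 - (-1 / 2)| := by
    apply intervalIntegral.norm_integral_le_of_norm_le_const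
    intro x hx
    rw [uIoc_of_le (by norm_num)] at hx
    have hx' : x ∈ Icc (-1 / 2 : ℝ) (3 / 2) := ⟨hx.1.le, hx.2⟩
    rw [norm_mul]
    exact mul_le_mul (g1 x hx') (hbB x hx') (norm_nonneg _) (by linarith)
  have b2 : ‖∫ x in (-1 / 2 : ℝ)..(3 / 2), deriv Zs (⟨x, T⟩ : ℂ) / Zs ⟨x, T⟩ * h ⟨x, T⟩‖ ≤
      (C1 * T ^ 2 + 1) * B * |3 / 2 - (-1 / 2)| := by
    apply intervalIntegral.norm_integral_le_of_norm_le_const
    intro x hx
    rw [uIoc_of_le (by norm_num)] at hx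
    have hx' : x ∈ Icc (-1 / 2 : ℝ) (3 / 2) := ⟨hx.1.le, hx.2⟩
    rw [norm_mul]
    exact mul_le_mul (g2 x hx') (htB x hx') (norm_nonneg _) (by linarith)
  have b3 : ‖∫ y in (-T)..T, deriv Zs (⟨-1 / 2, y⟩ : ℂ) / Zs ⟨-1 / 2, y⟩ * h ⟨-1 / 2, y⟩‖ ≤
      (C2 * (1 + T) + 1) * B * |T - (-T)| := by
    apply intervalIntegral.norm_integral_le_of_norm_le_const
    intro y hy
    rw [uIoc_of_le (by linarith)] at hy
    have hy' : y ∈ Icc (-T) T := ⟨hy.1.le, hy.2⟩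
    rw [norm_mul]
    exact mul_le_mul (g3 y hy') (hlB y hy') (norm_nonneg _) (by nlinarith)
  have b4 : ‖∫ x in (-1 / 2 : ℝ)..(3 / 2), (1 : ℂ) / ((⟨x, -T⟩ : ℂ) - 1) * h ⟨x, -T⟩‖ ≤
      1 * B * |3 / 2 - (-1 / 2)| := by
    apply intervalIntegral.norm_integral_le_of_norm_le_const
    intro x hx
    rw [uIoc_of_le (by norm_num)] at hx
    have hx' : x ∈ Icc (-1 / 2 : ℝ) (3 / 2) := ⟨hx.1.le, hx.2⟩
    rw [norm_mul]
    exact mul_le_mul (inv_im' x) (hbB x hx') (norm_nonneg _) (by norm_num)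
  have b5 : ‖∫ x in (-1 / 2 : ℝ)..(3 / 2), (1 : ℂ) / ((⟨x, T⟩ : ℂ) - 1) * h ⟨x, T⟩‖ ≤
      1 * B * |3 / 2 - (-1 / 2)| := by
    apply intervalIntegral.norm_integral_le_of_norm_le_const
    intro x hx
    rw [uIoc_of_le (by norm_num)] at hx
    have hx' : x ∈ Icc (-1 / 2 : ℝ) (3 / 2) := ⟨hx.1.le, hx.2⟩
    rw [norm_mul]
    exact mul_le_mul (inv_im x) (htB x hx') (norm_nonneg _) (by norm_num)
  have b6 : ‖∫ y in (-T)..T, (1 : ℂ) / ((⟨-1 / 2, y⟩ : ℂ) - 1) * h ⟨-1 / 2, y⟩‖ ≤ 1 * B * |T - (-T)| := by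
    apply intervalIntegral.norm_integral_le_of_norm_le_const
    intro y hy
    rw [uIoc_of_le (by linarith)] at hy
    have hy' : y ∈ Icc (-T) T := ⟨hy.1.le, hy.2⟩
    rw [norm_mul]
    exact mul_le_mul (inv_re y) (hlB y hy') (norm_nonneg _) (by norm_num)
  -- the right edge
  have hmk : Continuous fun y : ℝ => (⟨3 / 2, y⟩ : ℂ) := by
    have e : (fun y : ℝ => (⟨3 / 2, y⟩ : ℂ)) = fun y : ℝ => ((3 / 2 : ℝ) : ℂ) + y * Complex.I := by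
      funext y
      exact Complex.mk_eq_add_mul_I _ _
    rw [e]
    fun_prop
  have hz32 : ∀ y : ℝ, riemannZeta ⟨3 / 2, y⟩ ≠ 0 := fun y =>
    riemannZeta_ne_zero_of_one_lt_re (by norm_num)
  have n32 : ∀ y : ℝ, (⟨3 / 2, y⟩ : ℂ) ≠ 1 := fun y => ne1_of_re (by norm_num)
  have hcd : Continuous (deriv Zs) := by
    have : AnalyticOnNhd ℂ Zs univ := fun z _ => Zs_differentiable.analyticAt z
    exact continuousOn_univ.1 this.deriv.continuousOn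
  have i1 : IntervalIntegrable (fun y : ℝ => deriv Zs (⟨3 / 2, y⟩ : ℂ) / Zs ⟨3 / 2, y⟩ * h ⟨3 / 2, y⟩)
      volume (-T) T := by
    apply Continuous.intervalIntegrable
    refine ((hcd.comp hmk).div (Zs_differentiable.continuous.comp hmk) fun y => ?_).mul
      (hh.continuous.comp hmk)
    intro h0
    exact hz32 y ((Zs_zero_iff (n32 y)).1 h0)
  have i2 : IntervalIntegrable (fun y : ℝ => (1 : ℂ) / ((⟨3 / 2, y⟩ : ℂ) - 1) * h ⟨3 / 2, y⟩)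
      volume (-T) T := by
    apply Continuous.intervalIntegrable
    refine (continuous_const.div (hmk.sub continuous_const) fun y => ?_).mul (hh.continuous.comp hmk)
    exact sub_ne_zero.2 (n32 y)
  have e1 : (∫ y in (-T)..T, Fz ⟨3 / 2, y⟩ * h ⟨3 / 2, y⟩) =
      (∫ y in (-T)..T, (1 : ℂ) / ((⟨3 / 2, y⟩ : ℂ) - 1) * h ⟨3 / 2, y⟩) -
      ∫ y in (-T)..T, deriv Zs (⟨3 / 2, y⟩ : ℂ) / Zs ⟨3 / 2, y⟩ * h ⟨3 / 2, y⟩ := by
    rw [← intervalIntegral.integral_sub i2 i1]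
    apply intervalIntegral.integral_congr
    intro y _
    simp only
    rw [logDeriv_Zs (n32 y) (hz32 y)]
    ring
  set B1 := ∫ x in (-1 / 2 : ℝ)..(3 / 2), deriv Zs (⟨x, -T⟩ : ℂ) / Zs ⟨x, -T⟩ * h ⟨x, -T⟩ with hB1
  set B2 := ∫ x in (-1 / 2 : ℝ)..(3 / 2), deriv Zs (⟨x, T⟩ : ℂ) / Zs ⟨x, T⟩ * h ⟨x, T⟩ with hB2
  set B3 := ∫ y in (-T)..T, deriv Zs (⟨-1 / 2, y⟩ : ℂ) / Zs ⟨-1 / 2, y⟩ * h ⟨-1 / 2, y⟩ with hB3
  set B4 := ∫ x in (-1 / 2 : ℝ)..(3 / 2), (1 : ℂ) / ((⟨x, -T⟩ : ℂ) - 1) * h ⟨x, -T⟩ with hB4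
  set B5 := ∫ x in (-1 / 2 : ℝ)..(3 / 2), (1 : ℂ) / ((⟨x, T⟩ : ℂ) - 1) * h ⟨x, T⟩ with hB5
  set B6 := ∫ y in (-T)..T, (1 : ℂ) / ((⟨-1 / 2, y⟩ : ℂ) - 1) * h ⟨-1 / 2, y⟩ with hB6
  set R1 := ∫ y in (-T)..T, deriv Zs (⟨3 / 2, y⟩ : ℂ) / Zs ⟨3 / 2, y⟩ * h ⟨3 / 2, y⟩ with hR1
  set R2 := ∫ y in (-T)..T, (1 : ℂ) / ((⟨3 / 2, y⟩ : ℂ) - 1) * h ⟨3 / 2, y⟩ with hR2
  have hset : RZ T = {s | s ∈ Set.Ioo (-1 / 2 : ℝ) (3 / 2) ×ℂ Set.Ioo (-T) T ∧ Zs s = 0} := rfl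
  rw [← hset] at r1
  set Sg := ∑ᶠ s ∈ RZ T, (mult Zs s : ℂ) * h s with hSg
  rw [e1]
  have e2 : Complex.I * (R2 - R1 + 2 * Real.pi * Sg) =
      B1 - B2 - Complex.I * B3 - B4 + B5 + Complex.I * B6 := by
    linear_combination r2 - r1
  have e3 : ‖R2 - R1 + 2 * Real.pi * Sg‖ = ‖B1 - B2 - Complex.I * B3 - B4 + B5 + Complex.I * B6‖ := by
    rw [← e2, norm_mul, Complex.norm_I, one_mul]
  rw [e3]
  have t1 : ‖B1 - B2 - Complex.I * B3 - B4 + B5 + Complex.I * B6‖ ≤ ‖B1‖ + ‖B2‖ + ‖B3‖ + ‖B4‖ + ‖B5‖ + ‖B6‖ := by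
    refine (norm_add_le _ _).trans ?_
    refine (add_le_add (norm_add_le _ _) le_rfl).trans ?_
    refine (add_le_add (add_le_add (norm_sub_le _ _) le_rfl) le_rfl).trans ?_
    refine (add_le_add (add_le_add (add_le_add (norm_sub_le _ _) le_rfl) le_rfl) le_rfl).trans ?_
    refine (add_le_add (add_le_add (add_le_add (add_le_add (norm_sub_le _ _) le_rfl) le_rfl) le_rfl) le_rfl).trans ?_
    rw [norm_mul, norm_mul, Complex.norm_I, one_mul, one_mul]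
  refine t1.trans ?_
  rw [a1] at b1 b2 b4 b5
  rw [a2] at b3 b6
  have hTT : 4 * T + 8 ≤ 4 * T ^ 2 := by nlinarith
  have hfin2 : (C1 * T ^ 2 + 1) * B * 2 + (C1 * T ^ 2 + 1) * B * 2 + (C2 * (1 + T) + 1) * B * (2 * T) +
      1 * B * 2 + 1 * B * 2 + 1 * B * (2 * T) =
      (4 * C1 * T ^ 2 + 2 * C2 * (T + T ^ 2) + (4 * T + 8)) * B := by ring
  have hfin3 : 4 * C1 * T ^ 2 + 2 * C2 * (T + T ^ 2) + (4 * T + 8) ≤ (4 * (C1 + 1) + 8 * C2 + 16 + 2 * (C3 + 2)) * T ^ 2 := by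
    have h5 : T ≤ T ^ 2 := by nlinarith
    have h6 : 2 * C2 * (T + T ^ 2) ≤ 2 * C2 * (T ^ 2 + T ^ 2) := by gcongr
    nlinarith [sq_nonneg T]
  have hfin4 := mul_le_mul_of_nonneg_right hfin3 hB
  linarith

end

end Pool.Agent.N799.LW
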